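import Pool.Agent.Helper33_TDL.K2c

/-!
# TDL, the case kappa = 2: no player of a base contains `q` or `z` and an outer target (10a)
-/

set_option autoImplicit false

namespace Pool.Agent.TDL

open scoped Classical

variable {T P : Type} {X : Pos T P} {Bad : Finset T → Prop}

/-- The facts on the cluster `V` of a thin player of class `k` with token `w`. -/
structure Th (X : Pos T P) (Q C : Finset T) (a b k : T) (V : Finset T) (w : T) : Prop where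
  clu : Clu X V
  wQ : w ∈ Q
  wV : w ∉ V
  iff : ∀ t ∈ Q, (t ∈ V ↔ kk a b t ≠ k)
  cl : ∀ p ∈ X.A, ¬ Meets X p C → Meets X p V → ∀ t ∈ X.N p, t ∈ V ∨ t = w

theorem K2B.th_of (h : K2B X Bad) {Q C B D : Finset T} {y1 y2 : P} {a b : T}
    (hb : Base X Bad Q C y1 y2 a b) {x y : P} {c s : T} (hx : Att X C x)
    (hB : Base X Bad B D x y c s) (hc : c ∈ C) {t : T} (ht : t ∈ X.N x) (htC : t ∉ C) :
    Th X Q C a b (kk a b t) D t where
  clu := hB.nc.clu h.toK2N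
  wQ := hb.tokQ hx ht htC
  wV := fun h' => hB.notQ h' (hB.yQ ht)
  iff := hb.tok x B D hx hB.nc hB.yQ t ht htC
  cl := by
    intro p hp hpC hpD r hr
    by_cases hrD : r ∈ D
    · exact Or.inl hrD
    right
    have hrB := S.cl' hB.nc.mem' hp hpD hr hrD
    have hrC : r ∉ C := fun h' => hpC (meets_of hr h')
    rw [hB.eq] at hrB
    rcases Finset.mem_insert.1 hrB with rfl | h1
    · exact absurd (h.thin_s hb.nc hx hB hc) hrC
    · exact h.tok_unique hb.nc hx h1 hrC ht htC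

/-- A player with an outer target and a target in `Q`. -/
theorem K2B.fact1 (h : K2B X Bad) {Q C : Finset T} {y1 y2 : P} {a b : T}
    (hb : Base X Bad Q C y1 y2 a b) {k k' w w' : T} {V V' : Finset T}
    (hV : Th X Q C a b k V w) (hV' : Th X Q C a b k' V' w') (hk : k ≠ k')
    {p : P} (hp : p ∈ X.A) {o t : T} (ho : o ∈ X.N p) (hoC : o ∉ C) (hoQ : o ∉ Q)
    (ht : t ∈ X.N p) (htQ : t ∈ Q) :
    (∀ s ∈ X.N p, s = t ∨ s = o) ∧ (o ∈ V ↔ kk a b t ≠ k) := by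
  have hpC : ¬ Meets X p C := fun hm => hoQ (S.cl' hb.nc.mem' hp hm ho hoC)
  have hne : t ≠ o := fun e => hoQ (e ▸ htQ)
  have hp1 : p ≠ y1 := fun e => hoQ (hb.yQ (e ▸ ho))
  have hp2 : p ≠ y2 := fun e => hoQ ((mem_J.1 (base_mJ2 hb)).2 (e ▸ ho))
  have N1 : ∀ {k0 w0 : T} {V0 : Finset T}, Th X Q C a b k0 V0 w0 → kk a b t ≠ k0 →
      o ∈ V0 ∧ ∀ s ∈ X.N p, s = t ∨ s = o := by
    intro k0 w0 V0 hV0 hk0
    have htV : t ∈ V0 := (hV0.iff t htQ).2 hk0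
    have hall := hV0.cl p hp hpC (meets_of ht htV)
    have hoV : o ∈ V0 := by
      rcases hall o ho with h1 | h1
      · exact h1
      · exact absurd (h1 ▸ hV0.wQ) hoQ
    refine ⟨hoV, fun s hs => ?_⟩
    have hsV : s ∈ V0 := by
      rcases hall s hs with h1 | h1
      · exact h1
      · exfalso
        subst h1
        have := h.two95 hb hp hp1 hp2 hs ht hV0.wQ htQ
        exact hV0.wV (this ▸ htV)
    have hpair := hV0.clu.pair hp ht htV ho hoV hne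
    have : s ∈ X.N p ∩ V0 := Finset.mem_inter.2 ⟨hs, hsV⟩
    rw [hpair] at this
    simpa using this
  have hall : ∀ s ∈ X.N p, s = t ∨ s = o := by
    by_cases h1 : kk a b t ≠ k
    · exact (N1 hV h1).2
    · push Not at h1
      exact (N1 hV' (h1 ▸ hk)).2
  refine ⟨hall, fun hoV => ?_, fun h1 => (N1 hV h1).1⟩
  obtain ⟨s, hs1, hs2, hs3⟩ := hV.clu.other hp ho hoV
  rcases hall s hs1 with rfl | rfl
  · exact (hV.iff s htQ).1 hs2
  · exact absurd rfl hs3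

theorem K2B.fact2 (h : K2B X Bad) {Q C : Finset T} {y1 y2 : P} {a b : T}
    (hb : Base X Bad Q C y1 y2 a b) {k w : T} {V : Finset T}
    (hV : Th X Q C a b k V w) {p : P} (hp : p ∈ X.A) {o o' : T} (ho : o ∈ X.N p)
    (hoC : o ∉ C) (hoQ : o ∉ Q) (ho' : o' ∈ X.N p) (ho'Q : o' ∉ Q)
    (hoV : o ∈ V) : o' ∈ V := by
  have hpC : ¬ Meets X p C := fun hm => hoQ (S.cl' hb.nc.mem' hp hm ho hoC)
  rcases hV.cl p hp hpC (meets_of ho hoV) o' ho' with h1 | h1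
  · exact h1
  · exact absurd (h1 ▸ hV.wQ) ho'Q

theorem K2B.claim1 (h : K2B X Bad) {Q C : Finset T} {y1 y2 : P} {a b : T}
    (hb : Base X Bad Q C y1 y2 a b) {k k' w w' : T} {V V' : Finset T}
    (hV : Th X Q C a b k V w) (hV' : Th X Q C a b k' V' w') (hk : k ≠ k')
    (hka : k ≠ a) (hka' : k' ≠ a) (hk'1 : k' ∈ X.N y1) :
    ∀ o ∈ V, o ∉ C → o ∉ Q → o ∈ V' := by
  by_contra hcon
  push Not at hcon
  obtain ⟨o0, h0V, h0C, h0Q, h0V'⟩ := hcon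
  have hmL : ∀ t, t ∈ (V.filter fun t => t ∉ C ∧ t ∉ Q ∧ t ∉ V') ↔
      t ∈ V ∧ t ∉ C ∧ t ∉ Q ∧ t ∉ V' := fun t => Finset.mem_filter
  set L := V.filter fun t => t ∉ C ∧ t ∉ Q ∧ t ∉ V' with hL
  have hk'Q : k' ∈ Q := hb.yQ hk'1
  have haV : a ∈ V := (hV.iff a hb.aQ).2 (by rw [kk_a]; exact hka.symm)
  obtain ⟨p, hp, hp1, hp2⟩ := hV.clu.conn k' L (by
    intro t ht
    obtain ⟨h1, h2, h3, h4⟩ := (hmL t).1 ht
    exact Finset.mem_erase.2 ⟨fun e => h3 (e ▸ hk'Q), h1⟩) ⟨o0, (hmL o0).2 ⟨h0V, h0C, h0Q, h0V'⟩⟩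
    (by
      intro e
      have : a ∈ L := by rw [e]; exact Finset.mem_erase.2 ⟨hka'.symm, haV⟩
      exact ((hmL a).1 this).2.2.1 hb.aQ)
  obtain ⟨o, ho1, ho2⟩ := (meets_iff _ _).1 hp1
  obtain ⟨t, ht1, ht2⟩ := (meets_iff _ _).1 hp2
  obtain ⟨ht3, ht4⟩ := Finset.mem_sdiff.1 ht2
  obtain ⟨ht5, ht6⟩ := Finset.mem_erase.1 ht3
  obtain ⟨o3, o4, o5, o6⟩ := (hmL o).1 ho2
  have hpC : ¬ Meets X p C := fun hm => o5 (S.cl' hb.nc.mem' hp hm ho1 o4)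
  by_cases htQ : t ∈ Q
  · have := (h.fact1 hb hV' hV hk.symm hp ho1 o4 o5 ht1 htQ).2
    have h7 : kk a b t = k' := by
      by_contra h8
      exact o6 (this.2 h8)
    exact ht5 (kk_eq h7 hka')
  · have htC : t ∉ C := fun h' => hpC (meets_of ht1 h')
    have htV' : t ∈ V' := by
      by_contra h8
      exact ht4 ((hmL t).2 ⟨ht6, htC, htQ, h8⟩)
    exact o6 (h.fact2 hb hV' hp ht1 htC htQ ho1 o5 htV')

theorem K2B.ten_core (h : K2B X Bad) {Q C : Finset T} {y1 y2 : P} {a b : T}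
    (hb : Base X Bad Q C y1 y2 a b) {k k' w w' : T} {V V' : Finset T}
    (hV : Th X Q C a b k V w) (hV' : Th X Q C a b k' V' w') (hk : k ≠ k')
    (hk1 : k ∈ X.N y1) (hk'1 : k' ∈ X.N y1) (hka : k ≠ a)
    {p : P} (hp : p ∈ X.A) {r o : T} (hr : r ∈ X.N y1) (hra : r ≠ a) (hrp : r ∈ X.N p)
    (ho : o ∈ X.N p) (hoC : o ∉ C) (hoQ : o ∉ Q) : False := by
  have hrQ := hb.yQ hr
  have f1 := (h.fact1 hb hV hV' hk hp ho hoC hoQ hrp hrQ).2
  have f2 := (h.fact1 hb hV' hV hk.symm hp ho hoC hoQ hrp hrQ).2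
  rw [hb.kk_self hr] at f1 f2
  by_cases hka' : k' = a
  · -- the case `k' = a`
    subst hka'
    obtain ⟨z, hz1, hz2, hz3, hz4⟩ := hb.third hk1 hb.ha hka
    have hzQ := hb.yQ hz1
    have hzV : z ∈ V := (hV.iff z hzQ).2 (by rw [hb.kk_self hz1]; exact hz2)
    have hzV' : z ∈ V' := (hV'.iff z hzQ).2 (by rw [hb.kk_self hz1]; exact hz3)
    have haV : k' ∈ V := (hV.iff k' hb.aQ).2 (by rw [kk_a]; exact hka.symm)
    have hN : ∀ t ∈ Q, kk k' b t ≠ k' → t = k ∨ t = z := by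
      intro t ht hne
      rw [hb.eq] at ht
      rcases Finset.mem_insert.1 ht with rfl | ht
      · exact absurd kk_b hne
      · rcases hz4 t ht with rfl | rfl | rfl
        · exact Or.inl rfl
        · exact absurd kk_a hne
        · exact Or.inr rfl
    have hM : ∀ o ∈ V, o ∈ V' → o ∉ C → o ∉ Q → False := by
      intro o0 h0V h0V' h0C h0Q
      have hmL : ∀ t, t ∈ (V.filter fun t => t ∉ C ∧ t ∉ Q ∧ t ∈ V') ↔
          t ∈ V ∧ t ∉ C ∧ t ∉ Q ∧ t ∈ V' := fun t => Finset.mem_filter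
      set L := V.filter fun t => t ∉ C ∧ t ∉ Q ∧ t ∈ V' with hL
      obtain ⟨p, hp, hp1, hp2⟩ := hV.clu.conn z L (by
        intro t ht
        obtain ⟨h1, h2, h3, h4⟩ := (hmL t).1 ht
        exact Finset.mem_erase.2 ⟨fun e => h3 (e ▸ hzQ), h1⟩)
        ⟨o0, (hmL o0).2 ⟨h0V, h0C, h0Q, h0V'⟩⟩
        (by
          intro e
          have : k' ∈ L := by rw [e]; exact Finset.mem_erase.2 ⟨hz3.symm, haV⟩
          exact ((hmL k').1 this).2.2.1 hb.aQ)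
      obtain ⟨o, ho1, ho2⟩ := (meets_iff _ _).1 hp1
      obtain ⟨t, ht1, ht2⟩ := (meets_iff _ _).1 hp2
      obtain ⟨ht3, ht4⟩ := Finset.mem_sdiff.1 ht2
      obtain ⟨ht5, ht6⟩ := Finset.mem_erase.1 ht3
      obtain ⟨o3, o4, o5, o6⟩ := (hmL o).1 ho2
      have hpC : ¬ Meets X p C := fun hm => o5 (S.cl' hb.nc.mem' hp hm ho1 o4)
      by_cases htQ : t ∈ Q
      · have g1 := (h.fact1 hb hV hV' hk hp ho1 o4 o5 ht1 htQ).2.1 o3
        have g2 := (h.fact1 hb hV' hV hk.symm hp ho1 o4 o5 ht1 htQ).2.1 o6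
        rcases hN t htQ g2 with rfl | rfl
        · exact g1 (hb.kk_self hk1)
        · exact ht5 rfl
      · have htC : t ∉ C := fun h' => hpC (meets_of ht1 h')
        have htV' := h.fact2 hb hV' hp ho1 o4 o5 ht1 htQ o6
        exact ht4 ((hmL t).2 ⟨ht6, htC, htQ, htV'⟩)
    have hO : ∀ o ∈ V', o ∉ C → o ∉ Q → False := by
      intro o0 h0V' h0C h0Q
      have hmL : ∀ t, t ∈ (V'.filter fun t => t ∉ C ∧ t ∉ Q) ↔
          t ∈ V' ∧ t ∉ C ∧ t ∉ Q := fun t => Finset.mem_filter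
      set L := V'.filter fun t => t ∉ C ∧ t ∉ Q with hL
      have hkQ := hb.yQ hk1
      obtain ⟨p, hp, hp1, hp2⟩ := hV'.clu.conn k L (by
        intro t ht
        obtain ⟨h1, h2, h3⟩ := (hmL t).1 ht
        exact Finset.mem_erase.2 ⟨fun e => h3 (e ▸ hkQ), h1⟩)
        ⟨o0, (hmL o0).2 ⟨h0V', h0C, h0Q⟩⟩
        (by
          intro e
          have : z ∈ L := by rw [e]; exact Finset.mem_erase.2 ⟨hz2, hzV'⟩
          exact ((hmL z).1 this).2.2 hzQ)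
      obtain ⟨o, ho1, ho2⟩ := (meets_iff _ _).1 hp1
      obtain ⟨t, ht1, ht2⟩ := (meets_iff _ _).1 hp2
      obtain ⟨ht3, ht4⟩ := Finset.mem_sdiff.1 ht2
      obtain ⟨ht5, ht6⟩ := Finset.mem_erase.1 ht3
      obtain ⟨o3, o4, o5⟩ := (hmL o).1 ho2
      have hpC : ¬ Meets X p C := fun hm => o5 (S.cl' hb.nc.mem' hp hm ho1 o4)
      by_cases htQ : t ∈ Q
      · have g2 := (h.fact1 hb hV' hV hk.symm hp ho1 o4 o5 ht1 htQ).2.1 o3
        rcases hN t htQ g2 with rfl | rfl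
        · exact ht5 rfl
        · have g1 := (h.fact1 hb hV hV' hk hp ho1 o4 o5 ht1 htQ).2.2
            (by rw [hb.kk_self hz1]; exact hz2)
          exact hM o g1 o3 o4 o5
      · have htC : t ∉ C := fun h' => hpC (meets_of ht1 h')
        exact ht4 ((hmL t).2 ⟨ht6, htC, htQ⟩)
    exact hO o (f2.2 hra) hoC hoQ
  · -- the case `k' ≠ a`
    have c1 := h.claim1 hb hV hV' hk hka hka' hk'1
    have c2 := h.claim1 hb hV' hV hk.symm hka' hka hk1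
    obtain ⟨z, hz1, hz2, hz3, hz4⟩ := hb.third hk1 hk'1 hk
    have hza : z = a := by
      rcases hz4 a hb.ha with h1 | h1 | h1
      · exact absurd h1.symm hka
      · exact absurd h1.symm hka'
      · exact h1.symm
    rcases hz4 r hr with rfl | rfl | rfl
    · have o1 : o ∈ V' := f2.2 hk
      have o2 := c2 o o1 hoC hoQ
      exact f1.1 o2 rfl
    · have o1 : o ∈ V := f1.2 hk.symm
      have o2 := c1 o o1 hoC hoQ
      exact f2.1 o2 rfl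
    · exact hra hza

/-- Two thin players of different classes. -/
theorem K2B.two_thin (h : K2B X Bad) (hsix : SixStmt) {Q C : Finset T} {y1 y2 : P} {a b : T}
    (hb : Base X Bad Q C y1 y2 a b) : ∃ k ∈ X.N y1, ∃ k' ∈ X.N y1, k ≠ k' ∧
      (∃ V w, Th X Q C a b k V w) ∧ (∃ V w, Th X Q C a b k' V w) := by
  -- the classes
  have fatcase : ∀ k ∈ X.N y1, ∀ (x : P) (B D : Finset T) (y : P) (c s : T), Att X C x →
      Base X Bad B D x y c s → c ∉ C → kk a b c = k → ∀ k2 ∈ X.N y1, ∀ k3 ∈ X.N y1,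
      k2 ≠ k → k3 ≠ k → k2 ≠ k3 → (∃ V w, Th X Q C a b k2 V w) ∧
        (∃ V w, Th X Q C a b k3 V w) := by
    intro k hk x B D y c s hx hB hc hkc k2 hk2 k3 hk3 n2 n3 n23
    obtain ⟨g, h', m, u, v, i0, i1, tg, th, hs⟩ := hsix T P X Bad h Q C y1 y2 a b hb x B D y c s
      hx hB hc k2 hk2 k3 hk3 n23 (by rw [hkc]; exact n2) (by rw [hkc]; exact n3)
    obtain ⟨Bg, Dg, yg, cg, sg, hBg⟩ := h.wbase hb.nc hs.ag
    obtain ⟨Bh, Dh, yh, ch, sh, hBh⟩ := h.wbase hb.nc hs.ah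
    have e1 := (hs.bg _ _ _ _ _ hBg).1
    have e2 := (hs.bh _ _ _ _ _ hBh).1
    have r1 := h.th_of hb hs.ag hBg (e1 ▸ hs.i0C) (t := tg) (by rw [hs.ng]; simp) hs.tgC
    have r2 := h.th_of hb hs.ah hBh (e2 ▸ hs.i1C) (t := th) (by rw [hs.nh]; simp) hs.thC
    rw [hs.kg] at r1
    rw [hs.kh] at r2
    exact ⟨⟨_, _, r1⟩, ⟨_, _, r2⟩⟩
  have hcq : ((X.N y1).erase a).card = 2 := by
    rw [Finset.card_erase_of_mem hb.ha, hb.c3]
  obtain ⟨q, z, hqz, hqz2⟩ := Finset.card_eq_two.1 hcq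
  have hq : q ∈ (X.N y1).erase a := by rw [hqz2]; simp
  have hz : z ∈ (X.N y1).erase a := by rw [hqz2]; simp
  obtain ⟨hq1, hq2⟩ := Finset.mem_erase.1 hq
  obtain ⟨hz1, hz2⟩ := Finset.mem_erase.1 hz
  have split : ∀ k ∈ X.N y1, (∃ V w, Th X Q C a b k V w) ∨
      (∀ k2 ∈ X.N y1, ∀ k3 ∈ X.N y1, k2 ≠ k → k3 ≠ k → k2 ≠ k3 →
        (∃ V w, Th X Q C a b k2 V w) ∧ (∃ V w, Th X Q C a b k3 V w)) := by
    intro k hk
    obtain ⟨e, he, t, ht, htC, hkt⟩ := hb.cls k hk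
    obtain ⟨B, D, y, c, s, hB⟩ := h.wbase hb.nc he
    by_cases hc : c ∈ C
    · left
      have := h.th_of hb he hB hc ht htC
      rw [hkt] at this
      exact ⟨_, _, this⟩
    · right
      have hct : c = t := h.tok_unique hb.nc he hB.ha hc ht htC
      exact fatcase k hk e B D y c s he hB hc (hct ▸ hkt)
  rcases split a hb.ha with h1 | h1
  · rcases split q hq2 with h2 | h2
    · exact ⟨a, hb.ha, q, hq2, hq1.symm, h1, h2⟩
    · obtain ⟨h3, h4⟩ := h2 a hb.ha z hz2 hq1.symm (Ne.symm hqz) hz1.symm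
      exact ⟨a, hb.ha, z, hz2, hz1.symm, h3, h4⟩
  · obtain ⟨h3, h4⟩ := h1 q hq2 z hz2 hq1 hz1 hqz
    exact ⟨q, hq2, z, hz2, hqz, h3, h4⟩

/-- (10a) -/
theorem K2B.ten (h : K2B X Bad) (hsix : SixStmt) {Q C : Finset T} {y1 y2 : P} {a b : T}
    (hb : Base X Bad Q C y1 y2 a b) {p : P} (hp : p ∈ X.A) {r o : T} (hr : r ∈ X.N y1)
    (hra : r ≠ a) (hrp : r ∈ X.N p) (ho : o ∈ X.N p) (hoC : o ∉ C) (hoQ : o ∉ Q) : False := by
  obtain ⟨k, hk1, k', hk1', hkk, ⟨V, w, hV⟩, ⟨V', w', hV'⟩⟩ := h.two_thin hsix hb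
  by_cases hka : k = a
  · exact h.ten_core hb hV' hV hkk.symm hk1' hk1 (fun e => hkk (hka.trans e.symm)) hp hr hra hrp
      ho hoC hoQ
  · exact h.ten_core hb hV hV' hkk hk1 hk1' hka hp hr hra hrp ho hoC hoQ

/-- Step 13. -/
theorem K2B.fat13 (h : K2B X Bad) (hsix : SixStmt) : Fat13 X Bad := by
  intro Q C y1 y2 a b hb x B D y c s hx hB htok hc
  obtain ⟨w, hw, hwC, hk⟩ := htok
  -- the other element
  obtain ⟨w', hw'2, hw'w, hw'k, hwy⟩ : ∃ w', w' ∈ X.N y2 ∧ w' ≠ w ∧ kk a b w' = a ∧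
      w ∈ X.N y2 := by
    rcases kk_eq_a hk with rfl | rfl
    · exact ⟨b, by rw [hb.n2]; simp, Ne.symm hb.ab, kk_b, by rw [hb.n2]; simp⟩
    · exact ⟨a, by rw [hb.n2]; simp, hb.ab, kk_a, by rw [hb.n2]; simp⟩
  have hw'Q : w' ∈ Q := (mem_J.1 (base_mJ2 hb)).2 hw'2
  have hw'C : w' ∉ C := fun h' => hb.notQ h' hw'Q
  have hw'D : w' ∉ D := by
    rw [hb.tok x B D hx hB.nc hB.yQ w hw hwC w' hw'Q, hw'k, hk]
    exact fun h' => h' rfl
  have hsC := h.thin_s hb.nc hx hB hc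
  have hw'B : w' ∉ B := by
    rw [hB.eq]
    intro h'
    rcases Finset.mem_insert.1 h' with rfl | h'
    · exact hw'C hsC
    · exact hw'w (h.tok_unique hb.nc hx h' hw'C hw hwC)
  exact h.ten hsix hB hb.A2 hw (fun e => hwC (e ▸ hc)) hwy hw'2 hw'D hw'B

/-- Step 12. -/
theorem K2B.cov12 (h : K2B X Bad) (hsix : SixStmt) : Cov12 X Bad := by
  intro Q C y1 y2 a b hb x B D y c s hx hB hc
  by_contra hcon
  push Not at hcon
  obtain ⟨l0, h0C, h0D, h0x⟩ := hcon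
  have hcl := hb.nc.clu h.toK2N
  have hsC := h.fat_s hb.nc hx hB hc
  have hmL : ∀ t, t ∈ (C.filter fun t => t ∉ D ∧ t ∉ X.N x) ↔
      t ∈ C ∧ t ∉ D ∧ t ∉ X.N x := fun t => Finset.mem_filter
  set L := C.filter fun t => t ∉ D ∧ t ∉ X.N x with hL
  obtain ⟨u, hu1, hu2⟩ := (meets_iff _ _).1 hx.2.1
  obtain ⟨p, hp, hp1, hp2⟩ := hcl.conn0 (L := L) (Finset.filter_subset _ _)
    ⟨l0, (hmL l0).2 ⟨h0C, h0D, h0x⟩⟩ (by
      intro e
      have : u ∈ L := by rw [e]; exact hu2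
      exact ((hmL u).1 this).2.2 hu1)
  obtain ⟨l, hl1, hl2⟩ := (meets_iff _ _).1 hp1
  obtain ⟨t, ht1, ht2⟩ := (meets_iff _ _).1 hp2
  obtain ⟨ht3, ht4⟩ := Finset.mem_sdiff.1 ht2
  obtain ⟨l3, l4, l5⟩ := (hmL l).1 hl2
  have hlB : l ∉ B := by
    rw [hB.eq]
    intro h'
    rcases Finset.mem_insert.1 h' with rfl | h'
    · exact hsC l3
    · exact l5 h'
  by_cases htD : t ∈ D
  · exact hlB (h.cut2 hb.nc hB.nc hp ht1 ht3 htD hl1 l3 l4).1
  · have htx : t ∈ X.N x := by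
      by_contra h8
      exact ht4 ((hmL t).2 ⟨ht3, htD, h8⟩)
    exact h.ten hsix hB hp htx (fun e => hc (e ▸ ht3)) ht1 hl1 l4 hlB

end Pool.Agent.TDL
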