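import Pool.Agent.Helper33_TDL.K2b
import Pool.Agent.Helper33_TDL.K2d
import Pool.Agent.Helper53_TDL.Base
import Pool.Agent.Helper71_TDL.Six
import Pool.Agent.Helper71_TDL.Fin

/-!
# TDL, the case kappa = 2: assembly
-/

set_option autoImplicit false

namespace Pool.Agent.TDL

open scoped Classical

variable {T P : Type} {X : Pos T P} {Bad : Finset T → Prop}

theorem Six.symm {C D : Finset T} {a b : T} {x : P} {r2 r3 : T} {g h m : P}
    {u v i0 i1 tg th : T} (hs : Six X Bad C D a b x r2 r3 g h m u v i0 i1 tg th) :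
    Six X Bad C D a b x r3 r2 h g m v u i1 i0 th tg where
  ag := hs.ah
  ah := hs.ag
  am := hs.am
  uv := hs.uv.symm
  ii := hs.ii.symm
  uC := hs.vC
  vC := hs.uC
  i0C := hs.i1C
  i1C := hs.i0C
  i0D := hs.i1D
  i1D := hs.i0D
  uD := hs.vD
  vD := hs.uD
  nx := by rw [hs.nx, Finset.pair_comm]
  ng := hs.nh
  nh := hs.ng
  nm := by rw [hs.nm, Finset.pair_comm]
  tgC := hs.thC
  thC := hs.tgC
  kg := hs.kh
  kh := hs.kg
  bg := hs.bh
  bh := hs.bg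

theorem kap2_of (hbase : BaseStmt) (hsix : SixStmt) (hfin : FinStmt) : Kap2Stmt := by
  intro T P X Bad hB hX hcl hx0
  obtain ⟨x, hx, h3⟩ := hx0
  have h : K2 X Bad := ⟨hB, hX, hcl⟩
  have hN : K2N X Bad := h.toN
  have h2 : K2B X Bad := { toK2N := hN, base := hbase T P X Bad hN }
  have h13 := h2.fat13 hsix
  have h12 := h2.cov12 hsix
  obtain ⟨B0, hB0, -⟩ := h.wit hx h3
  obtain ⟨C0, hC0⟩ := h.nc_of hB0
  obtain ⟨x0, hx0⟩ := h.att (S.bad hC0.mem)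
  obtain ⟨Q, C, y2, a, b, hb⟩ := h2.wbase hC0 hx0
  obtain ⟨e, he, t, ht, htC, hk⟩ := hb.cls a hb.ha
  obtain ⟨B, D, y, c, s, hbe⟩ := h2.wbase hb.nc he
  have hc := h13 Q C x0 y2 a b hb e B D y c s he hbe ⟨t, ht, htC, hk⟩
  have hct : c = t := h2.tok_unique hb.nc he hbe.ha hc ht htC
  have hkc : kk a b c = a := by rw [hct]; exact hk
  -- the other classes
  have hcq : ((X.N x0).erase a).card = 2 := by
    rw [Finset.card_erase_of_mem hb.ha, hb.c3]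
  obtain ⟨q, z, hqz, hqz2⟩ := Finset.card_eq_two.1 hcq
  have hq : q ∈ (X.N x0).erase a := by rw [hqz2]; simp
  have hz : z ∈ (X.N x0).erase a := by rw [hqz2]; simp
  obtain ⟨hq1, hq2⟩ := Finset.mem_erase.1 hq
  obtain ⟨hz1, hz2⟩ := Finset.mem_erase.1 hz
  obtain ⟨g, h', m, u, v, i0, i1, tg, th, hs⟩ := hsix T P X Bad h2 Q C x0 y2 a b hb e B D y c s
    he hbe hc q hq2 z hz2 hqz (by rw [hkc]; exact hq1) (by rw [hkc]; exact hz1)
  have hcl := hb.nc.clu hN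
  have ui0 : u ≠ i0 := fun e => hs.uD (e ▸ hs.i0D)
  have ui1 : u ≠ i1 := fun e => hs.uD (e ▸ hs.i1D)
  have vi0 : v ≠ i0 := fun e => hs.vD (e ▸ hs.i0D)
  have vi1 : v ≠ i1 := fun e => hs.vD (e ▸ hs.i1D)
  have eh : X.N h' ∩ C = {v, i1} := hcl.pair hs.ah.1 (by rw [hs.nh]; simp) hs.vC
    (by rw [hs.nh]; simp) hs.i1C vi1
  have em : X.N m ∩ C = {i1, i0} := hcl.pair hs.am (by rw [hs.nm]; simp) hs.i1C
    (by rw [hs.nm]; simp) hs.i0C hs.ii.symm
  have eg : X.N g ∩ C = {i0, u} := hcl.pair hs.ag.1 (by rw [hs.ng]; simp) hs.i0C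
    (by rw [hs.ng]; simp) hs.uC ui0.symm
  have hnd : [u, v, i1, i0].Nodup := by
    simp only [List.nodup_cons, List.mem_cons, List.not_mem_nil, or_false, not_or,
      not_false_eq_true, List.nodup_nil, and_true]
    exact ⟨⟨hs.uv, ui1, ui0⟩, ⟨vi1, vi0⟩, hs.ii.symm⟩
  rcases hcl.cyc u v i1 i0 e he.1 h' hs.ah.1 m hs.am g hs.ag.1 hnd hs.nx eh em eg with h1 | h1
  · exact hfin T P X Bad h2 h13 h12 Q C x0 y2 a b hb e B D y c s he hbe hkc hc q z g h' m u v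
      i0 i1 tg th hs hq2 hz2 hqz hq1 hz1 h1.1 h1.2
  · exact hfin T P X Bad h2 h13 h12 Q C x0 y2 a b hb e B D y c s he hbe hkc hc z q h' g m v u
      i1 i0 th tg hs.symm hz2 hq2 hqz.symm hz1 hq1 h1.1 h1.2

theorem kap2 : Kap2Stmt := kap2_of H53.base H71.six H71.fin

end Pool.Agent.TDL
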