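import Mathlib

/-!
# TDL: the last case of the total domination game, abstract setting

`U` targets, `A` players, `N p` the targets of the player `p`. `Bad` is an abstract predicate on sets
of targets (truly bad closed graphs).
-/

set_option autoImplicit false

namespace Pool.Agent.TDL

open scoped Classical

variable {T P : Type}

/-- A position. -/
structure Pos (T P : Type) where
  U : Finset T
  A : Finset P
  N : P → Finset T
  sub : ∀ p ∈ A, N p ⊆ U
  ne : ∀ p ∈ A, (N p).Nonempty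

/-- The player `p` meets `V`. -/
def Meets (X : Pos T P) (p : P) (V : Finset T) : Prop := ¬ Disjoint (X.N p) V

/-- The players with all targets in `R`. -/
noncomputable def J (X : Pos T P) (R : Finset T) : Finset P := X.A.filter fun p => X.N p ⊆ R

/-- The players meeting `V`. -/
noncomputable def E (X : Pos T P) (V : Finset T) : Finset P := X.A.filter fun p => Meets X p V

/-- The edges of `V` with both ends in `B`. -/
noncomputable def Ei (X : Pos T P) (V B : Finset T) : Finset P :=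
  X.A.filter fun p => Meets X p V ∧ X.N p ∩ V ⊆ B

/-- Number of players at a target. -/
noncomputable def deg (X : Pos T P) (v : T) : ℕ := (X.A.filter fun p => v ∈ X.N p).card

/-- The facts about truly bad graphs. -/
structure Clu (X : Pos T P) (V : Finset T) : Prop where
  sub : V ⊆ X.U
  two : ∀ p ∈ X.A, Meets X p V → (X.N p ∩ V).card = 2
  simp : ∀ p ∈ X.A, ∀ p' ∈ X.A, Meets X p V → X.N p ∩ V = X.N p' ∩ V → p = p'
  conn : ∀ v : T, ∀ L ⊆ V.erase v, L.Nonempty → L ≠ V.erase v →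
    ∃ p ∈ X.A, Meets X p L ∧ Meets X p (V.erase v \ L)
  sp2 : ∀ B ⊆ V, 2 ≤ B.card → (Ei X V B).card + 3 ≤ 2 * B.card
  sp3 : ∀ B ⊆ V, 3 ≤ B.card → (Ei X V B).card + 4 ≤ 2 * B.card
  phi : (V.card + (E X V).card) % 6 = 5
  cyc : ∀ u v w z : T, ∀ p₁ ∈ X.A, ∀ p₂ ∈ X.A, ∀ p₃ ∈ X.A, ∀ p₄ ∈ X.A,
    [u, v, w, z].Nodup → X.N p₁ ∩ V = {u, v} → X.N p₂ ∩ V = {v, w} → X.N p₃ ∩ V = {w, z} →
    X.N p₄ ∩ V = {z, u} → (deg X u = 2 ∧ deg X w = 2) ∨ (deg X v = 2 ∧ deg X z = 2)

/-- Every token of `V` has a player not meeting `V`. -/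
def Viab (X : Pos T P) (V : Finset T) : Prop :=
  ∀ t, t ∉ V → (∃ p ∈ X.A, t ∈ X.N p ∧ Meets X p V) → ∃ p ∈ X.A, t ∈ X.N p ∧ ¬ Meets X p V

/-- The (viable, truly bad) clusters closed by `R`. -/
noncomputable def S (X : Pos T P) (Bad : Finset T → Prop) (R : Finset T) : Finset (Finset T) :=
  X.U.powerset.filter fun V => Bad V ∧ Viab X V ∧ Disjoint V R ∧
    ∀ p ∈ X.A, Meets X p V → X.N p ⊆ V ∪ R

/-- Twice the level. -/
noncomputable def F (X : Pos T P) (Bad : Finset T → Prop) (R : Finset T) : ℤ :=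
  2 * ((S X Bad R).card : ℤ) - 2 * (R.card : ℤ) + ((J X R).card : ℤ)

/-- `X` is connected. -/
def Conn (X : Pos T P) : Prop := ∀ L ⊆ X.U, L.Nonempty → L ≠ X.U →
  ∃ p ∈ X.A, Meets X p L ∧ Meets X p (X.U \ L)

end Pool.Agent.TDL
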