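import Mathlib
import Pool.Agent.Helper33_TDL.Defs

/-!
# TDL: basic lemmas, the mixed inequality `keep`
-/

set_option autoImplicit false

namespace Pool.Agent.TDL

open scoped Classical

variable {T P : Type} {X : Pos T P} {Bad : Finset T → Prop}

theorem meets_iff (p : P) (V : Finset T) : Meets X p V ↔ ∃ t ∈ X.N p, t ∈ V := by
  rw [Meets, Finset.not_disjoint_iff]

theorem meets_of {p : P} {V : Finset T} {t : T} (h1 : t ∈ X.N p) (h2 : t ∈ V) : Meets X p V :=
  (meets_iff p V).2 ⟨t, h1, h2⟩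

theorem Meets.mono {p : P} {V V' : Finset T} (h : Meets X p V) (hV : V ⊆ V') : Meets X p V' := by
  obtain ⟨t, h1, h2⟩ := (meets_iff p V).1 h
  exact meets_of h1 (hV h2)

theorem mem_J {R : Finset T} {p : P} : p ∈ J X R ↔ p ∈ X.A ∧ X.N p ⊆ R := by
  simp [J]

theorem mem_E {V : Finset T} {p : P} : p ∈ E X V ↔ p ∈ X.A ∧ Meets X p V := by
  simp [E]

theorem mem_Ei {V B : Finset T} {p : P} :
    p ∈ Ei X V B ↔ p ∈ X.A ∧ Meets X p V ∧ X.N p ∩ V ⊆ B := by
  simp [Ei]

theorem mem_S {R V : Finset T} : V ∈ S X Bad R ↔ V ⊆ X.U ∧ Bad V ∧ Viab X V ∧ Disjoint V R ∧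
    ∀ p ∈ X.A, Meets X p V → X.N p ⊆ V ∪ R := by
  simp [S]

theorem S.disj {R V : Finset T} (h : V ∈ S X Bad R) : Disjoint V R := (mem_S.1 h).2.2.2.1

theorem S.viab {R V : Finset T} (h : V ∈ S X Bad R) : Viab X V := (mem_S.1 h).2.2.1

theorem S.bad {R V : Finset T} (h : V ∈ S X Bad R) : Bad V := (mem_S.1 h).2.1

theorem S.cl {R V : Finset T} (h : V ∈ S X Bad R) {p : P} (hp : p ∈ X.A) (hm : Meets X p V) :
    X.N p ⊆ V ∪ R := (mem_S.1 h).2.2.2.2 p hp hm

theorem S.cl' {R V : Finset T} (h : V ∈ S X Bad R) {p : P} (hp : p ∈ X.A) (hm : Meets X p V)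
    {t : T} (ht : t ∈ X.N p) (hV : t ∉ V) : t ∈ R := by
  rcases Finset.mem_union.1 (S.cl h hp hm ht) with h1 | h1
  · exact absurd h1 hV
  · exact h1

theorem S.not_mem {R V : Finset T} (h : V ∈ S X Bad R) {t : T} (ht : t ∈ V) : t ∉ R :=
  Finset.disjoint_left.1 (S.disj h) ht

theorem S.mono_R {R V R' : Finset T} (h : V ∈ S X Bad R) (hR : R ⊆ R') (hd : Disjoint V R') :
    V ∈ S X Bad R' := by
  obtain ⟨h1, h2, h3, -, h5⟩ := mem_S.1 h
  exact mem_S.2 ⟨h1, h2, h3, hd, fun p hp hm => (h5 p hp hm).trans (Finset.union_subset_union_right hR)⟩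

/-! ### Facts on clusters -/

theorem Clu.card_ge {V : Finset T} (h : Clu X V) : 3 ≤ V.card := by
  by_contra hc
  have hphi := h.phi
  have hE : ∀ p ∈ E X V, X.N p ∩ V ⊆ V := fun p _ => Finset.inter_subset_right
  have hEE : E X V = Ei X V V := by
    ext p
    simp [mem_E, mem_Ei]
  have h3 : V.card = 0 ∨ V.card = 1 ∨ V.card = 2 := by omega
  rcases h3 with h0 | h0 | h0
  · have : V = ∅ := Finset.card_eq_zero.1 h0
    have hE0 : E X V = ∅ := by
      rw [this]
      ext p
      simp [mem_E, Meets]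
    rw [h0, hE0] at hphi
    simp at hphi
  · have hE0 : E X V = ∅ := by
      ext p
      simp only [Finset.notMem_empty, iff_false]
      intro hp
      obtain ⟨hp1, hp2⟩ := mem_E.1 hp
      have h2 := h.two p hp1 hp2
      have h4 : (X.N p ∩ V).card ≤ V.card := Finset.card_le_card Finset.inter_subset_right
      omega
    rw [h0, hE0] at hphi
    simp at hphi
  · have h2 := h.sp2 V (Finset.Subset.refl _) (by omega)
    rw [← hEE] at h2
    omega

theorem Clu.conn0 {V : Finset T} (h : Clu X V) {L : Finset T} (hL : L ⊆ V) (hne : L.Nonempty)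
    (hV : L ≠ V) : ∃ p ∈ X.A, Meets X p L ∧ Meets X p (V \ L) := by
  have hc := h.card_ge
  have hsd : (V \ L).Nonempty := by
    rw [Finset.sdiff_nonempty]
    exact fun h' => hV (Finset.Subset.antisymm hL h')
  by_cases h1 : (V \ L).card = 1
  · obtain ⟨v, hv⟩ := Finset.card_eq_one.1 h1
    have hvV : v ∈ V \ L := by rw [hv]; exact Finset.mem_singleton_self v
    have hcL : 2 ≤ L.card := by
      have := Finset.card_sdiff_add_card_eq_card hL
      omega
    obtain ⟨u, hu⟩ := hne
    have hu2 : (L.erase u).Nonempty := by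
      rw [← Finset.card_pos, Finset.card_erase_of_mem hu]
      omega
    have huv : u ≠ v := fun e => (Finset.mem_sdiff.1 hvV).2 (e ▸ hu)
    obtain ⟨p, hp, hp1, hp2⟩ := h.conn u (L.erase u)
      (Finset.erase_subset_erase u hL) hu2 (by
        intro e
        have : v ∈ L.erase u := by
          rw [e]
          exact Finset.mem_erase.2 ⟨huv.symm, (Finset.mem_sdiff.1 hvV).1⟩
        exact (Finset.mem_sdiff.1 hvV).2 (Finset.mem_of_mem_erase this))
    refine ⟨p, hp, hp1.mono (Finset.erase_subset _ _), hp2.mono ?_⟩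
    intro t ht
    obtain ⟨ht1, ht2⟩ := Finset.mem_sdiff.1 ht
    obtain ⟨ht3, ht4⟩ := Finset.mem_erase.1 ht1
    exact Finset.mem_sdiff.2 ⟨ht4, fun h' => ht2 (Finset.mem_erase.2 ⟨ht3, h'⟩)⟩
  · obtain ⟨v, hv⟩ := hsd
    obtain ⟨hv1, hv2⟩ := Finset.mem_sdiff.1 hv
    obtain ⟨p, hp, hp1, hp2⟩ := h.conn v L (by
        intro t ht
        exact Finset.mem_erase.2 ⟨fun e => hv2 (e ▸ ht), hL ht⟩) hne (by
        intro e
        apply h1
        rw [e]
        have : V \ V.erase v = {v} := by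
          ext t
          simp only [Finset.mem_sdiff, Finset.mem_erase, Finset.mem_singleton, not_and, ne_eq]
          constructor
          · rintro ⟨h3, h4⟩
            by_contra h5
            exact h4 h5 h3
          · rintro rfl
            exact ⟨hv1, fun h' => absurd rfl h'⟩
        rw [this, Finset.card_singleton])
    refine ⟨p, hp, hp1, hp2.mono ?_⟩
    exact Finset.sdiff_subset_sdiff (Finset.erase_subset _ _) (Finset.Subset.refl _)

/-- If the cluster `D` is disjoint from `R` and meets `C`, which is closed by `R`, then it is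
contained in `C`. -/
theorem sub_of_meet {C D R : Finset T} (hD : Clu X D) (hDR : Disjoint D R)
    (hC : ∀ p ∈ X.A, Meets X p C → X.N p ⊆ C ∪ R) (hCD : (D ∩ C).Nonempty) : D ⊆ C := by
  by_contra hn
  obtain ⟨p, hp, hp1, hp2⟩ := hD.conn0 (L := D ∩ C) Finset.inter_subset_left hCD (by
    intro e
    exact hn (Finset.inter_eq_left.1 e))
  have hpC : Meets X p C := hp1.mono Finset.inter_subset_right
  obtain ⟨t, ht1, ht2⟩ := (meets_iff _ _).1 hp2
  obtain ⟨ht3, ht4⟩ := Finset.mem_sdiff.1 ht2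
  rcases Finset.mem_union.1 (hC p hp hpC ht1) with h1 | h1
  · exact ht4 (Finset.mem_inter.2 ⟨ht3, h1⟩)
  · exact Finset.disjoint_left.1 hDR ht3 h1

theorem S.disjoint (hB : ∀ V, Bad V → Clu X V) {R C D : Finset T} (hC : C ∈ S X Bad R)
    (hD : D ∈ S X Bad R) (hne : C ≠ D) : Disjoint C D := by
  by_contra hn
  have h1 : (D ∩ C).Nonempty := by
    rw [Finset.not_disjoint_iff] at hn
    obtain ⟨t, h1, h2⟩ := hn
    exact ⟨t, Finset.mem_inter.2 ⟨h2, h1⟩⟩
  have h2 := sub_of_meet (hB D (S.bad hD)) (S.disj hD) (fun p hp hm => S.cl hC hp hm) h1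
  have h3 := sub_of_meet (hB C (S.bad hC)) (S.disj hC) (fun p hp hm => S.cl hD hp hm)
    (by rwa [Finset.inter_comm])
  exact hne (Finset.Subset.antisymm h3 h2)

/-- A player meeting two different clusters of `S R` does not exist. -/
theorem S.not_both (hB : ∀ V, Bad V → Clu X V) {R C D : Finset T} (hC : C ∈ S X Bad R)
    (hD : D ∈ S X Bad R) (hne : C ≠ D) {p : P} (hp : p ∈ X.A) (h1 : Meets X p C) :
    ¬ Meets X p D := by
  intro h2
  obtain ⟨t, ht1, ht2⟩ := (meets_iff _ _).1 h2
  have hdis := S.disjoint hB hC hD hne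
  have := S.cl' hC hp h1 ht1 (Finset.disjoint_right.1 hdis ht2)
  exact S.not_mem hD ht2 this

/-! ### The union of the clusters, cost -/

/-- The union of the clusters closed by `R`. -/
noncomputable def Cl (X : Pos T P) (Bad : Finset T → Prop) (R : Finset T) : Finset T :=
  (S X Bad R).biUnion id

theorem mem_Cl {R : Finset T} {t : T} : t ∈ Cl X Bad R ↔ ∃ V ∈ S X Bad R, t ∈ V := by
  simp [Cl]

theorem Cl_disj {R : Finset T} : Disjoint (Cl X Bad R) R := by
  rw [Finset.disjoint_left]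
  intro t ht
  obtain ⟨V, hV, htV⟩ := mem_Cl.1 ht
  exact S.not_mem hV htV

/-- The cost of hitting `V` by `B`. -/
noncomputable def cost (X : Pos T P) (B V : Finset T) : ℤ :=
  2 * ((B ∩ V).card : ℤ) - (((J X B).filter fun p => Meets X p V).card : ℤ)

/-- The clusters closed by `P` and hit by `B`. -/
noncomputable def Hit (X : Pos T P) (Bad : Finset T → Prop) (Q B : Finset T) :
    Finset (Finset T) := (S X Bad Q).filter fun V => ¬ Disjoint V B

theorem mem_Hit {Q B V : Finset T} : V ∈ Hit X Bad Q B ↔ V ∈ S X Bad Q ∧ ¬ Disjoint V B := by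
  simp [Hit]

theorem cost_zero {B V : Finset T} (h : Disjoint V B) : cost X B V = 0 := by
  have h1 : B ∩ V = ∅ := by
    rw [Finset.inter_comm]
    exact Finset.disjoint_iff_inter_eq_empty.1 h
  have h2 : ((J X B).filter fun p => Meets X p V) = ∅ := by
    ext p
    simp only [Finset.mem_filter, Finset.notMem_empty, iff_false, not_and]
    intro hp hm
    obtain ⟨t, ht1, ht2⟩ := (meets_iff _ _).1 hm
    exact Finset.disjoint_left.1 h ht2 ((mem_J.1 hp).2 ht1)
  simp [cost, h1, h2]

theorem cost_ge {B V : Finset T} :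
    2 * ((B ∩ V).card : ℤ) - ((Ei X V (B ∩ V)).card : ℤ) ≤ cost X B V := by
  have : ((J X B).filter fun p => Meets X p V) ⊆ Ei X V (B ∩ V) := by
    intro p hp
    obtain ⟨hp1, hp2⟩ := Finset.mem_filter.1 hp
    obtain ⟨hp3, hp4⟩ := mem_J.1 hp1
    exact mem_Ei.2 ⟨hp3, hp2, fun t ht => Finset.mem_inter.2
      ⟨hp4 (Finset.mem_inter.1 ht).1, (Finset.mem_inter.1 ht).2⟩⟩
  have h := Finset.card_le_card this
  unfold cost
  have h' : ((((J X B).filter fun p => Meets X p V).card : ℕ) : ℤ) ≤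
      ((Ei X V (B ∩ V)).card : ℤ) := by exact_mod_cast h
  linarith

theorem cost_ge3 {B V : Finset T} (hV : Clu X V) (h : 2 ≤ (B ∩ V).card) : 3 ≤ cost X B V := by
  have h1 := hV.sp2 (B ∩ V) Finset.inter_subset_right h
  have h2 := cost_ge (X := X) (B := B) (V := V)
  have h3 : ((Ei X V (B ∩ V)).card : ℤ) + 3 ≤ 2 * ((B ∩ V).card : ℤ) := by exact_mod_cast h1
  linarith

theorem cost_ge4 {B V : Finset T} (hV : Clu X V) (h : 3 ≤ (B ∩ V).card) : 4 ≤ cost X B V := by
  have h1 := hV.sp3 (B ∩ V) Finset.inter_subset_right h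
  have h2 := cost_ge (X := X) (B := B) (V := V)
  have h3 : ((Ei X V (B ∩ V)).card : ℤ) + 4 ≤ 2 * ((B ∩ V).card : ℤ) := by exact_mod_cast h1
  linarith

theorem cost_nonneg (hB : ∀ V, Bad V → Clu X V) {B V R : Finset T} (hV : V ∈ S X Bad R) :
    0 ≤ cost X B V := by
  by_cases h2 : 2 ≤ (B ∩ V).card
  · have := cost_ge3 (hB V (S.bad hV)) h2
    linarith
  · have hJ : ((J X B).filter fun p => Meets X p V) = ∅ := by
      ext p
      simp only [Finset.mem_filter, Finset.notMem_empty, iff_false, not_and]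
      intro hp hm
      obtain ⟨hp1, hp2⟩ := mem_J.1 hp
      have h3 := (hB V (S.bad hV)).two p hp1 hm
      have h4 : X.N p ∩ V ⊆ B ∩ V := Finset.inter_subset_inter hp2 (Finset.Subset.refl _)
      have h5 := Finset.card_le_card h4
      omega
    simp only [cost, hJ, Finset.card_empty, Nat.cast_zero, sub_zero]
    positivity

/-! ### The mixed inequality -/

theorem S_union_left (hB : ∀ V, Bad V → Clu X V) (Q B : Finset T) :
    S X Bad Q ⊆ S X Bad (Q ∪ (B \ Cl X Bad Q)) := by
  intro V hV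
  refine S.mono_R hV Finset.subset_union_left ?_
  rw [Finset.disjoint_union_right]
  refine ⟨S.disj hV, ?_⟩
  rw [Finset.disjoint_left]
  intro t ht h'
  exact (Finset.mem_sdiff.1 h').2 (mem_Cl.2 ⟨V, hV, ht⟩)

theorem S_union_right (hB : ∀ V, Bad V → Clu X V) (Q B D : Finset T) (hD : D ∈ S X Bad B)
    (hDQ : Disjoint D Q) : D ∈ S X Bad (Q ∪ (B \ Cl X Bad Q)) := by
  obtain ⟨h1, h2, h3, h4, h5⟩ := mem_S.1 hD
  refine mem_S.2 ⟨h1, h2, h3, ?_, ?_⟩
  · rw [Finset.disjoint_union_right]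
    exact ⟨hDQ, h4.mono_right Finset.sdiff_subset⟩
  · intro p hp hm t ht
    rcases Finset.mem_union.1 (h5 p hp hm ht) with h6 | h6
    · exact Finset.mem_union_left _ h6
    by_cases htC : t ∈ Cl X Bad Q
    · exfalso
      obtain ⟨C, hC, htC⟩ := mem_Cl.1 htC
      have hpC : Meets X p C := meets_of ht htC
      obtain ⟨d, hd1, hd2⟩ := (meets_iff _ _).1 hm
      have hdC : d ∈ C := by
        by_contra hdC
        exact Finset.disjoint_left.1 hDQ hd2 (S.cl' hC hp hpC hd1 hdC)
      have hDC := sub_of_meet (hB D h2) hDQ (fun p hp hm => S.cl hC hp hm)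
        ⟨d, Finset.mem_inter.2 ⟨hd2, hdC⟩⟩
      have hc2 := (hB D h2).two p hp hm
      have hc3 := (hB C (S.bad hC)).two p hp hpC
      have htD : t ∉ D := fun h' => S.not_mem hD h' h6
      have hsub : insert t (X.N p ∩ D) ⊆ X.N p ∩ C := by
        intro s hs
        rcases Finset.mem_insert.1 hs with rfl | hs
        · exact Finset.mem_inter.2 ⟨ht, htC⟩
        · exact Finset.mem_inter.2 ⟨(Finset.mem_inter.1 hs).1, hDC (Finset.mem_inter.1 hs).2⟩
      have hc4 := Finset.card_le_card hsub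
      rw [Finset.card_insert_of_notMem (fun h' => htD (Finset.mem_inter.1 h').2)] at hc4
      omega
    · exact Finset.mem_union_right _ (Finset.mem_union_right _ (Finset.mem_sdiff.2 ⟨h6, htC⟩))

theorem S_inter {Q B V : Finset T} (h1 : V ∈ S X Bad Q) (h2 : V ∈ S X Bad B) :
    V ∈ S X Bad (Q ∩ B) := by
  obtain ⟨a1, a2, a3, a4, a5⟩ := mem_S.1 h1
  obtain ⟨-, -, -, b4, b5⟩ := mem_S.1 h2
  refine mem_S.2 ⟨a1, a2, a3, a4.mono_right Finset.inter_subset_left, fun p hp hm t ht => ?_⟩
  rcases Finset.mem_union.1 (a5 p hp hm ht) with h | h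
  · exact Finset.mem_union_left _ h
  rcases Finset.mem_union.1 (b5 p hp hm ht) with h' | h'
  · exact Finset.mem_union_left _ h'
  exact Finset.mem_union_right _ (Finset.mem_inter.2 ⟨h, h'⟩)

/-- The mixed inequality. -/
theorem keep (hB : ∀ V, Bad V → Clu X V) (Q B : Finset T) :
    F X Bad Q + F X Bad B + ∑ V ∈ S X Bad Q, cost X B V - 2 * ((Hit X Bad B Q).card : ℤ) ≤
      F X Bad (Q ∪ (B \ Cl X Bad Q)) + F X Bad (Q ∩ B) := by
  set B' := B \ Cl X Bad Q with hB'
  -- clusters
  have hS : (S X Bad Q).card + ((S X Bad B).filter fun D => Disjoint D Q).card ≤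
      (S X Bad (Q ∪ B')).card + (S X Bad (Q ∩ B)).card := by
    rw [← Finset.card_union_add_card_inter]
    apply Nat.add_le_add
    · apply Finset.card_le_card
      apply Finset.union_subset (S_union_left hB Q B)
      intro D hD
      obtain ⟨h1, h2⟩ := Finset.mem_filter.1 hD
      exact S_union_right hB Q B D h1 h2
    · apply Finset.card_le_card
      intro V hV
      obtain ⟨h1, h2⟩ := Finset.mem_inter.1 hV
      exact S_inter h1 (Finset.mem_filter.1 h2).1
  have hS2 : ((S X Bad B).filter fun D => Disjoint D Q).card + (Hit X Bad B Q).card =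
      (S X Bad B).card := Finset.card_filter_add_card_filter_not _
  -- players
  have hJ : (J X Q).card + (J X B').card ≤ (J X (Q ∪ B')).card + (J X (Q ∩ B)).card := by
    rw [← Finset.card_union_add_card_inter]
    apply Nat.add_le_add
    · apply Finset.card_le_card
      intro p hp
      rcases Finset.mem_union.1 hp with h | h
      · exact mem_J.2 ⟨(mem_J.1 h).1, (mem_J.1 h).2.trans Finset.subset_union_left⟩
      · exact mem_J.2 ⟨(mem_J.1 h).1, (mem_J.1 h).2.trans Finset.subset_union_right⟩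
    · apply Finset.card_le_card
      intro p hp
      obtain ⟨h1, h2⟩ := Finset.mem_inter.1 hp
      exact mem_J.2 ⟨(mem_J.1 h1).1, Finset.subset_inter (mem_J.1 h1).2
        ((mem_J.1 h2).2.trans Finset.sdiff_subset)⟩
  have hJ2 : (J X B).card = (J X B').card +
      ((J X B).filter fun p => Meets X p (Cl X Bad Q)).card := by
    rw [← Finset.card_filter_add_card_filter_not (s := J X B)
      (fun p => Meets X p (Cl X Bad Q)), add_comm]
    congr 1
    congr 1
    ext p
    simp only [Finset.mem_filter, mem_J, hB', Finset.subset_sdiff, Meets, not_not]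
    tauto
  have hJ3 : ((J X B).filter fun p => Meets X p (Cl X Bad Q)).card ≤
      ∑ V ∈ S X Bad Q, ((J X B).filter fun p => Meets X p V).card := by
    refine le_trans (Finset.card_le_card ?_) Finset.card_biUnion_le
    intro p hp
    obtain ⟨h1, h2⟩ := Finset.mem_filter.1 hp
    obtain ⟨t, ht1, ht2⟩ := (meets_iff _ _).1 h2
    obtain ⟨V, hV, htV⟩ := mem_Cl.1 ht2
    exact Finset.mem_biUnion.2 ⟨V, hV, Finset.mem_filter.2 ⟨h1, meets_of ht1 htV⟩⟩
  -- targets
  have hc : (Q ∪ B').card + (Q ∩ B).card = Q.card + B'.card := by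
    have : Q ∩ B = Q ∩ B' := by
      ext t
      simp only [Finset.mem_inter, hB', Finset.mem_sdiff]
      constructor
      · rintro ⟨h1, h2⟩
        exact ⟨h1, h2, fun h' => Finset.disjoint_left.1 Cl_disj h' h1⟩
      · rintro ⟨h1, h2, -⟩
        exact ⟨h1, h2⟩
    rw [this]
    exact Finset.card_union_add_card_inter _ _
  have hc2 : B.card = B'.card + ∑ V ∈ S X Bad Q, (B ∩ V).card := by
    have h1 : (B ∩ Cl X Bad Q).card = ∑ V ∈ S X Bad Q, (B ∩ V).card := by
      rw [Cl, Finset.inter_biUnion, Finset.card_biUnion]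
      · rfl
      · intro V hV V' hV' hne
        exact (S.disjoint hB hV hV' hne).mono Finset.inter_subset_right Finset.inter_subset_right
    rw [← h1, hB']
    exact (Finset.card_sdiff_add_card_inter B _).symm
  have hcost : ∑ V ∈ S X Bad Q, cost X B V = 2 * ((∑ V ∈ S X Bad Q, (B ∩ V).card : ℕ) : ℤ) -
      ((∑ V ∈ S X Bad Q, ((J X B).filter fun p => Meets X p V).card : ℕ) : ℤ) := by
    simp only [cost]
    rw [Finset.sum_sub_distrib, ← Finset.mul_sum]
    push_cast
    rfl
  rw [hcost]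
  simp only [F]
  have hS' : ((S X Bad Q).card : ℤ) + (((S X Bad B).filter fun D => Disjoint D Q).card : ℤ) ≤
      ((S X Bad (Q ∪ B')).card : ℤ) + ((S X Bad (Q ∩ B)).card : ℤ) := by exact_mod_cast hS
  have hS2' : (((S X Bad B).filter fun D => Disjoint D Q).card : ℤ) +
      ((Hit X Bad B Q).card : ℤ) = ((S X Bad B).card : ℤ) := by exact_mod_cast hS2
  have hJ' : ((J X Q).card : ℤ) + ((J X B').card : ℤ) ≤
      ((J X (Q ∪ B')).card : ℤ) + ((J X (Q ∩ B)).card : ℤ) := by exact_mod_cast hJ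
  have hJ2' : ((J X B).card : ℤ) = ((J X B').card : ℤ) +
      (((J X B).filter fun p => Meets X p (Cl X Bad Q)).card : ℤ) := by exact_mod_cast hJ2
  have hJ3' : (((J X B).filter fun p => Meets X p (Cl X Bad Q)).card : ℤ) ≤
      ((∑ V ∈ S X Bad Q, ((J X B).filter fun p => Meets X p V).card : ℕ) : ℤ) := by
    exact_mod_cast hJ3
  have hc' : ((Q ∪ B').card : ℤ) + ((Q ∩ B).card : ℤ) = (Q.card : ℤ) + (B'.card : ℤ) := by
    exact_mod_cast hc
  have hc2' : (B.card : ℤ) = (B'.card : ℤ) + ((∑ V ∈ S X Bad Q, (B ∩ V).card : ℕ) : ℤ) := by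
    exact_mod_cast hc2
  linarith

end Pool.Agent.TDL
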