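import Pool.Agent.Helper33_TDL.Basic
import Pool.Agent.Helper34_TDL.Defs

/-!
# TDL, the case kappa = 2: first part, the linked pairs
-/

set_option autoImplicit false

namespace Pool.Agent.TDL

open scoped Classical

variable {T P : Type} {X : Pos T P} {Bad : Finset T → Prop}

/-- The hypotheses of the case kappa = 2. -/
structure K2 (X : Pos T P) (Bad : Finset T → Prop) : Prop where
  clu : ∀ V, Bad V → Clu X V
  ng : NG3 X Bad
  closer : ∀ R, R ⊆ X.U → (S X Bad R).Nonempty → F X Bad R ≤ -4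

/-- Critical sets. -/
def NC (X : Pos T P) (Bad : Finset T → Prop) (Q : Finset T) : Prop :=
  Q ⊆ X.U ∧ (S X Bad Q).Nonempty ∧ F X Bad Q = -4

/-- The player `x` meets `C` and has a token. -/
def Att (X : Pos T P) (C : Finset T) (x : P) : Prop :=
  x ∈ X.A ∧ Meets X x C ∧ ¬ X.N x ⊆ C

theorem F_eq (R : Finset T) : F X Bad R = 2 * ((S X Bad R).card : ℤ) - ph X R := by
  unfold F ph
  ring

theorem K2.no_pend (h : K2 X Bad) {p : P} (hp : p ∈ X.A) : 2 ≤ (X.N p).card := by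
  by_contra hc
  have h1 : 0 < (X.N p).card := Finset.card_pos.2 (X.ne p hp)
  obtain ⟨t, ht⟩ := Finset.card_eq_one.1 (by omega : (X.N p).card = 1)
  have hg := h.ng.g0 {t} (by rw [← ht]; exact X.sub p hp) (Finset.singleton_nonempty t)
  have hJ : 0 < (J X {t}).card := Finset.card_pos.2 ⟨p, mem_J.2 ⟨hp, ht.le⟩⟩
  unfold F at hg
  rw [Finset.card_singleton] at hg
  push_cast at hg
  omega

theorem K2.wit (h : K2 X Bad) {x : P} (hx : x ∈ X.A) (h3 : 3 ≤ (X.N x).card) :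
    ∃ B, NC X Bad B ∧ X.N x ⊆ B := by
  obtain ⟨Q, hQ, hmax⟩ := Finset.exists_max_image
    (X.U.powerset.filter fun R => X.N x ⊆ R) (F X Bad)
    ⟨X.U, Finset.mem_filter.2 ⟨Finset.mem_powerset.2 (Finset.Subset.refl _), X.sub x hx⟩⟩
  obtain ⟨hQ1, hQ2⟩ := Finset.mem_filter.1 hQ
  have hQ3 := Finset.mem_powerset.1 hQ1
  have hw : Wit X Bad x Q := ⟨hQ2, hQ3, fun R hR1 hR2 =>
    hmax R (Finset.mem_filter.2 ⟨Finset.mem_powerset.2 hR2, hR1⟩)⟩
  have h1 := h.ng.g1 x hx Q hw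
  have h2 := h.ng.g4 x hx Q hQ3 hQ2
  have h4 : (3 : ℤ) ≤ ((X.N x).card : ℤ) := by exact_mod_cast h3
  have hS : (S X Bad Q).Nonempty := by
    rw [← Finset.card_pos]
    rw [F_eq] at h1
    omega
  exact ⟨Q, ⟨hQ3, hS, le_antisymm (h.closer Q hQ3 hS) h1⟩, hQ2⟩

theorem K2.att (h : K2 X Bad) {C : Finset T} (hC : Bad C) : ∃ x, Att X C x := by
  have hcl := h.clu C hC
  have hc := hcl.card_ge
  obtain ⟨p, hp, h1, h2⟩ := h.ng.conn C hcl.sub (Finset.card_pos.1 (by omega))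
    (fun e => h.ng.notbad (e ▸ hC))
  refine ⟨p, hp, h1, fun hs => ?_⟩
  obtain ⟨t, ht1, ht2⟩ := (meets_iff _ _).1 h2
  exact (Finset.mem_sdiff.1 ht2).2 (hs ht1)

theorem Att.card_ge {C : Finset T} (hC : Clu X C) {x : P} (hx : Att X C x) :
    3 ≤ (X.N x).card := by
  obtain ⟨h1, h2, h3⟩ := hx
  obtain ⟨t, ht, htC⟩ := Finset.not_subset.1 h3
  have hsub : insert t (X.N x ∩ C) ⊆ X.N x := by
    intro s hs
    rcases Finset.mem_insert.1 hs with rfl | hs
    · exact ht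
    · exact (Finset.mem_inter.1 hs).1
  have := Finset.card_le_card hsub
  rw [Finset.card_insert_of_notMem (fun h' => htC (Finset.mem_inter.1 h').2),
    hC.two x h1 h2] at this
  omega

theorem Clu.other {D : Finset T} (hD : Clu X D) {p : P} (hp : p ∈ X.A) {w : T} (h1 : w ∈ X.N p)
    (h2 : w ∈ D) : ∃ t ∈ X.N p, t ∈ D ∧ t ≠ w := by
  have hc := hD.two p hp (meets_of h1 h2)
  obtain ⟨t, ht, hne⟩ := Finset.exists_mem_ne (by omega : 1 < (X.N p ∩ D).card) w
  exact ⟨t, (Finset.mem_inter.1 ht).1, (Finset.mem_inter.1 ht).2, hne⟩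

theorem Clu.pair {D : Finset T} (hD : Clu X D) {p : P} (hp : p ∈ X.A) {s t : T}
    (h1 : s ∈ X.N p) (h2 : s ∈ D) (h3 : t ∈ X.N p) (h4 : t ∈ D) (hne : s ≠ t) :
    X.N p ∩ D = {s, t} := by
  have hc := hD.two p hp (meets_of h1 h2)
  symm
  apply Finset.eq_of_subset_of_card_le
  · intro r hr
    rcases Finset.mem_insert.1 hr with rfl | hr
    · exact Finset.mem_inter.2 ⟨h1, h2⟩
    · rw [Finset.mem_singleton.1 hr]
      exact Finset.mem_inter.2 ⟨h3, h4⟩
  · rw [Finset.card_pair hne, hc]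

/-- No single hits. -/
theorem K2.single (h : K2 X Bad) {Q D : Finset T} (hQ : NC X Bad Q) (hD : Clu X D) :
    (D ∩ Q).card ≠ 1 := by
  intro h1
  obtain ⟨w, hw⟩ := Finset.card_eq_one.1 h1
  have hwm : w ∈ D ∩ Q := by rw [hw]; exact Finset.mem_singleton_self w
  obtain ⟨hwD, hwQ⟩ := Finset.mem_inter.1 hwm
  have huniq : ∀ t ∈ D, t ∈ Q → t = w := fun t ht1 ht2 =>
    Finset.mem_singleton.1 (hw ▸ Finset.mem_inter.2 ⟨ht1, ht2⟩)
  obtain ⟨hQ1, hQ2, hQ3⟩ := hQ
  by_cases hA : ∃ C ∈ S X Bad Q, (D ∩ C).Nonempty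
  · obtain ⟨C, hC, hne⟩ := hA
    have hwC : w ∉ C := fun h' => S.not_mem hC h' hwQ
    have hsub : D.erase w ⊆ C := by
      by_contra hns
      obtain ⟨p, hp, hp1, hp2⟩ := hD.conn w (D ∩ C) (by
        intro t ht
        obtain ⟨ht1, ht2⟩ := Finset.mem_inter.1 ht
        exact Finset.mem_erase.2 ⟨fun e => hwC (e ▸ ht2), ht1⟩) hne (by
        intro e
        apply hns
        rw [← e]
        exact Finset.inter_subset_right)
      obtain ⟨t, ht1, ht2⟩ := (meets_iff _ _).1 hp2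
      obtain ⟨ht3, ht4⟩ := Finset.mem_sdiff.1 ht2
      obtain ⟨ht5, ht6⟩ := Finset.mem_erase.1 ht3
      have ht7 : t ∉ C := fun h' => ht4 (Finset.mem_inter.2 ⟨ht6, h'⟩)
      exact ht5 (huniq t ht6 (S.cl' hC hp (hp1.mono Finset.inter_subset_right) ht1 ht7))
    have hall : ∀ p ∈ X.A, w ∈ X.N p → Meets X p C := by
      intro p hp hwp
      obtain ⟨t, ht1, ht2, ht3⟩ := hD.other hp hwp hwD
      exact meets_of ht1 (hsub (Finset.mem_erase.2 ⟨ht3, ht2⟩))
    obtain ⟨p, hp, hwp⟩ := h.ng.deg w (hD.sub hwD)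
    obtain ⟨p', hp', hwp', hm⟩ := S.viab hC w hwC ⟨p, hp, hwp, hall p hp hwp⟩
    exact hm (hall p' hp' hwp')
  · push Not at hA
    have hS : S X Bad Q ⊆ S X Bad (Q.erase w) := by
      intro C hC
      obtain ⟨a1, a2, a3, a4, a5⟩ := mem_S.1 hC
      refine mem_S.2 ⟨a1, a2, a3, a4.mono_right (Finset.erase_subset _ _), ?_⟩
      intro p hp hm t ht
      by_cases htC : t ∈ C
      · exact Finset.mem_union_left _ htC
      have htQ := S.cl' hC hp hm ht htC
      refine Finset.mem_union_right _ (Finset.mem_erase.2 ⟨?_, htQ⟩)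
      rintro rfl
      obtain ⟨s, hs1, hs2, hs3⟩ := hD.other hp ht hwD
      have hsC : s ∉ C := by
        intro hs4
        have : s ∈ D ∩ C := Finset.mem_inter.2 ⟨hs2, hs4⟩
        rw [hA C hC] at this
        exact absurd this (Finset.notMem_empty s)
      exact hs3 (huniq s hs2 (S.cl' hC hp hm hs1 hsC))
    have hJ : J X Q ⊆ J X (Q.erase w) := by
      intro p hp
      obtain ⟨hp1, hp2⟩ := mem_J.1 hp
      refine mem_J.2 ⟨hp1, fun t ht => Finset.mem_erase.2 ⟨?_, hp2 ht⟩⟩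
      rintro rfl
      obtain ⟨s, hs1, hs2, hs3⟩ := hD.other hp1 ht hwD
      exact hs3 (huniq s hs2 (hp2 hs1))
    have hcl := h.closer (Q.erase w) ((Finset.erase_subset _ _).trans hQ1) (hQ2.mono hS)
    have c1 := Finset.card_le_card hS
    have c2 := Finset.card_le_card hJ
    have c3 := Finset.card_erase_of_mem hwQ
    have c4 : 0 < Q.card := Finset.card_pos.2 ⟨w, hwQ⟩
    unfold F at hcl hQ3
    rw [c3] at hcl
    push_cast [Nat.cast_sub (by omega : 1 ≤ Q.card)] at hcl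
    omega

theorem S_sdiff (hB : ∀ V, Bad V → Clu X V) {Q B V : Finset T} (hV : V ∈ S X Bad Q)
    (hd : Disjoint V B) : V ∈ S X Bad (Q \ Cl X Bad B) := by
  obtain ⟨a1, a2, a3, a4, a5⟩ := mem_S.1 hV
  refine mem_S.2 ⟨a1, a2, a3, a4.mono_right Finset.sdiff_subset, ?_⟩
  intro p hp hm t ht
  by_cases htV : t ∈ V
  · exact Finset.mem_union_left _ htV
  have htQ := S.cl' hV hp hm ht htV
  refine Finset.mem_union_right _ (Finset.mem_sdiff.2 ⟨htQ, ?_⟩)
  intro htC
  obtain ⟨D, hD, htD⟩ := mem_Cl.1 htC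
  have hpD : Meets X p D := meets_of ht htD
  have hc2 := (hB D (S.bad hD)).two p hp hpD
  have hc3 := (hB V a2).two p hp hm
  have hsub : insert t (X.N p ∩ V) ⊆ X.N p ∩ D := by
    intro s hs
    rcases Finset.mem_insert.1 hs with rfl | hs
    · exact Finset.mem_inter.2 ⟨ht, htD⟩
    · obtain ⟨hs1, hs2⟩ := Finset.mem_inter.1 hs
      refine Finset.mem_inter.2 ⟨hs1, ?_⟩
      by_contra hs3
      exact Finset.disjoint_left.1 hd hs2 (S.cl' hD hp hpD hs1 hs3)
  have hc4 := Finset.card_le_card hsub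
  rw [Finset.card_insert_of_notMem (fun h' => htV (Finset.mem_inter.1 h').2)] at hc4
  omega

theorem ph_sdiff (hB : ∀ V, Bad V → Clu X V) (Q B : Finset T) :
    ph X (Q \ Cl X Bad B) = ph X Q - ∑ V ∈ S X Bad B, cost X Q V := by
  have hJ2 : (J X Q).card = (J X (Q \ Cl X Bad B)).card +
      ((J X Q).filter fun p => Meets X p (Cl X Bad B)).card := by
    rw [← Finset.card_filter_add_card_filter_not (s := J X Q)
      (fun p => Meets X p (Cl X Bad B)), add_comm]
    congr 1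
    congr 1
    ext p
    simp only [Finset.mem_filter, mem_J, Finset.subset_sdiff, Meets, not_not]
    tauto
  have hJ3 : ((J X Q).filter fun p => Meets X p (Cl X Bad B)).card =
      ∑ V ∈ S X Bad B, ((J X Q).filter fun p => Meets X p V).card := by
    rw [← Finset.card_biUnion]
    · congr 1
      ext p
      simp only [Finset.mem_filter, Finset.mem_biUnion]
      constructor
      · rintro ⟨h1, h2⟩
        obtain ⟨t, ht1, ht2⟩ := (meets_iff _ _).1 h2
        obtain ⟨V, hV, htV⟩ := mem_Cl.1 ht2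
        exact ⟨V, hV, h1, meets_of ht1 htV⟩
      · rintro ⟨V, hV, h1, h2⟩
        refine ⟨h1, ?_⟩
        obtain ⟨t, ht1, ht2⟩ := (meets_iff _ _).1 h2
        exact meets_of ht1 (mem_Cl.2 ⟨V, hV, ht2⟩)
    · intro V hV V' hV' hne
      rw [Function.onFun, Finset.disjoint_left]
      intro p hp hp'
      obtain ⟨h1, h2⟩ := Finset.mem_filter.1 hp
      obtain ⟨h3, h4⟩ := Finset.mem_filter.1 hp'
      exact S.not_both hB hV hV' hne (mem_J.1 h1).1 h2 h4
  have hc2 : Q.card = (Q \ Cl X Bad B).card + ∑ V ∈ S X Bad B, (Q ∩ V).card := by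
    have h1 : (Q ∩ Cl X Bad B).card = ∑ V ∈ S X Bad B, (Q ∩ V).card := by
      rw [Cl, Finset.inter_biUnion, Finset.card_biUnion]
      · rfl
      · intro V hV V' hV' hne
        exact (S.disjoint hB hV hV' hne).mono Finset.inter_subset_right Finset.inter_subset_right
    rw [← h1]
    exact (Finset.card_sdiff_add_card_inter Q _).symm
  have hcost : ∑ V ∈ S X Bad B, cost X Q V = 2 * ((∑ V ∈ S X Bad B, (Q ∩ V).card : ℕ) : ℤ) -
      ((∑ V ∈ S X Bad B, ((J X Q).filter fun p => Meets X p V).card : ℕ) : ℤ) := by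
    simp only [cost]
    rw [Finset.sum_sub_distrib, ← Finset.mul_sum]
    push_cast
    rfl
  rw [hcost, ← hJ3]
  unfold ph
  rw [hJ2, hc2]
  push_cast
  ring

end Pool.Agent.TDL
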