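import Pool.Agent.Helper33_TDL.K2s

/-!
# TDL, the case kappa = 2: linked pairs
-/

set_option autoImplicit false

namespace Pool.Agent.TDL

open scoped Classical

variable {T P : Type} {X : Pos T P} {Bad : Finset T → Prop}

/-- The numbers of a linked pair. -/
structure Link (X : Pos T P) (Bad : Finset T → Prop) (Q B : Finset T) : Prop where
  card_eq : (S X Bad Q).card = (S X Bad B).card
  card_le : (S X Bad B).card = 1 ∨ (S X Bad B).card = 2
  hitQ : ∀ V ∈ S X Bad Q, 2 ≤ (B ∩ V).card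
  hitB : ∀ V ∈ S X Bad B, 2 ≤ (Q ∩ V).card
  sumQ : ∑ V ∈ S X Bad B, cost X Q V ≤ 2 * ((S X Bad B).card : ℤ) + 2
  sumB : ∑ V ∈ S X Bad Q, cost X B V ≤ 2 * ((S X Bad Q).card : ℤ) + 2
  emQ : S X Bad (Q \ Cl X Bad B) = ∅
  emB : S X Bad (B \ Cl X Bad Q) = ∅

theorem K2.hit2 (h : K2 X Bad) {Q V : Finset T} (hQ : NC X Bad Q) (hV : Clu X V)
    (hd : ¬ Disjoint V Q) : 2 ≤ (Q ∩ V).card := by
  have h1 := h.single hQ hV
  have h2 : 0 < (V ∩ Q).card := by
    rw [Finset.card_pos]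
    rw [Finset.not_disjoint_iff] at hd
    obtain ⟨t, h3, h4⟩ := hd
    exact ⟨t, Finset.mem_inter.2 ⟨h3, h4⟩⟩
  rw [Finset.inter_comm]
  omega

theorem K2.sum_ge (h : K2 X Bad) {Q B : Finset T} (hB : NC X Bad B) :
    3 * ((Hit X Bad Q B).card : ℤ) ≤ ∑ V ∈ S X Bad Q, cost X B V := by
  have h1 : ∑ V ∈ Hit X Bad Q B, cost X B V ≤ ∑ V ∈ S X Bad Q, cost X B V := by
    apply Finset.sum_le_sum_of_subset_of_nonneg (Finset.filter_subset _ _)
    intro V hV _
    exact cost_nonneg h.clu hV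
  have h2 : ∑ _V ∈ Hit X Bad Q B, (3 : ℤ) ≤ ∑ V ∈ Hit X Bad Q B, cost X B V := by
    apply Finset.sum_le_sum
    intro V hV
    obtain ⟨h3, h4⟩ := mem_Hit.1 hV
    have hc := h.clu V (S.bad h3)
    exact cost_ge3 hc (h.hit2 hB hc h4)
  rw [Finset.sum_const, nsmul_eq_mul] at h2
  linarith

theorem K2.F_sdiff (h : K2 X Bad) {Q B : Finset T} (hQ : NC X Bad Q) :
    ∑ V ∈ S X Bad B, cost X Q V - 2 * ((Hit X Bad Q B).card : ℤ) - 4 ≤
      F X Bad (Q \ Cl X Bad B) := by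
  have h1 := ph_sdiff (X := X) (Bad := Bad) h.clu Q B
  have h2 : (S X Bad Q).card ≤ (S X Bad (Q \ Cl X Bad B)).card + (Hit X Bad Q B).card := by
    have h3 : ((S X Bad Q).filter fun V => ¬ ¬ Disjoint V B).card ≤
        (S X Bad (Q \ Cl X Bad B)).card := by
      apply Finset.card_le_card
      intro V hV
      obtain ⟨h4, h5⟩ := Finset.mem_filter.1 hV
      exact S_sdiff h.clu h4 (not_not.1 h5)
    have h6 : (Hit X Bad Q B).card + ((S X Bad Q).filter fun V => ¬ ¬ Disjoint V B).card =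
        (S X Bad Q).card := Finset.card_filter_add_card_filter_not _
    omega
  have h3 := hQ.2.2
  rw [F_eq] at h3
  rw [F_eq, h1]
  have h4 : ((S X Bad Q).card : ℤ) ≤ ((S X Bad (Q \ Cl X Bad B)).card : ℤ) +
      ((Hit X Bad Q B).card : ℤ) := by exact_mod_cast h2
  linarith

theorem K2.linked (h : K2 X Bad) {Q B C : Finset T} {x : P} (hQ : NC X Bad Q)
    (hB : NC X Bad B) (hC : C ∈ S X Bad Q) (hx : Att X C x) (hxB : X.N x ⊆ B) :
    Link X Bad Q B := by
  obtain ⟨hx1, hx2, hx3⟩ := hx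
  -- the intersection
  have hI : (Q ∩ B).Nonempty := by
    obtain ⟨t, ht, htC⟩ := Finset.not_subset.1 hx3
    exact ⟨t, Finset.mem_inter.2 ⟨S.cl' hC hx1 hx2 ht htC, hxB ht⟩⟩
  have hg0 := h.ng.g0 (Q ∩ B) (Finset.inter_subset_left.trans hQ.1) hI
  have hg0' := h.ng.g0 (B ∩ Q) (Finset.inter_subset_left.trans hB.1)
    (by rwa [Finset.inter_comm])
  have e1 := S_union_left (X := X) (Bad := Bad) h.clu Q B
  have e2 := S_union_left (X := X) (Bad := Bad) h.clu B Q
  have k1 := keep (X := X) (Bad := Bad) h.clu Q B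
  have k2 := keep (X := X) (Bad := Bad) h.clu B Q
  have c1 := h.closer (Q ∪ (B \ Cl X Bad Q))
    (Finset.union_subset hQ.1 (Finset.sdiff_subset.trans hB.1)) (hQ.2.1.mono e1)
  have c2 := h.closer (B ∪ (Q \ Cl X Bad B))
    (Finset.union_subset hB.1 (Finset.sdiff_subset.trans hQ.1)) (hB.2.1.mono e2)
  have s1 := h.sum_ge (Q := Q) hB
  have s2 := h.sum_ge (Q := B) hQ
  have hh1 : 0 < (Hit X Bad Q B).card := by
    rw [Finset.card_pos]
    obtain ⟨t, ht1, ht2⟩ := (meets_iff _ _).1 hx2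
    exact ⟨C, mem_Hit.2 ⟨hC, fun hd => Finset.disjoint_left.1 hd ht2 (hxB ht1)⟩⟩
  have fQ := hQ.2.2
  have fB := hB.2.2
  have d1 := h.F_sdiff (B := B) hQ
  have d2 := h.F_sdiff (B := Q) hB
  have hle1 : (Hit X Bad Q B).card ≤ (S X Bad Q).card :=
    Finset.card_le_card (Finset.filter_subset _ _)
  have hle2 : (Hit X Bad B Q).card ≤ (S X Bad B).card :=
    Finset.card_le_card (Finset.filter_subset _ _)
  have heq : (Hit X Bad Q B).card = (Hit X Bad B Q).card ∧
      ((Hit X Bad B Q).card = 1 ∨ (Hit X Bad B Q).card = 2) := by omega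
  have em1 : S X Bad (Q \ Cl X Bad B) = ∅ := by
    by_contra hne
    have := h.closer _ (Finset.sdiff_subset.trans hQ.1) (Finset.nonempty_iff_ne_empty.2 hne)
    omega
  have em2 : S X Bad (B \ Cl X Bad Q) = ∅ := by
    by_contra hne
    have := h.closer _ (Finset.sdiff_subset.trans hB.1) (Finset.nonempty_iff_ne_empty.2 hne)
    omega
  have hs1 : ∀ V ∈ S X Bad Q, ¬ Disjoint V B := by
    intro V hV hd
    have := S_sdiff h.clu hV hd
    rw [em1] at this
    exact Finset.notMem_empty _ this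
  have hs2 : ∀ V ∈ S X Bad B, ¬ Disjoint V Q := by
    intro V hV hd
    have := S_sdiff h.clu hV hd
    rw [em2] at this
    exact Finset.notMem_empty _ this
  have hc1 : (Hit X Bad Q B).card = (S X Bad Q).card := by
    rw [Hit, Finset.filter_true_of_mem hs1]
  have hc2 : (Hit X Bad B Q).card = (S X Bad B).card := by
    rw [Hit, Finset.filter_true_of_mem hs2]
  refine ⟨by omega, by omega, ?_, ?_, by omega, by omega, em1, em2⟩
  · intro V hV
    exact h.hit2 hB (h.clu V (S.bad hV)) (hs1 V hV)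
  · intro V hV
    exact h.hit2 hQ (h.clu V (S.bad hV)) (hs2 V hV)

/-- The size of the part of `Q` outside the clusters of `B`. -/
theorem K2.ph_part (h : K2 X Bad) {Q B : Finset T} (hQ : NC X Bad Q)
    (hL : Link X Bad Q B) :
    ph X (Q \ Cl X Bad B) = 4 + 2 * ((S X Bad B).card : ℤ) - ∑ V ∈ S X Bad B, cost X Q V := by
  rw [ph_sdiff h.clu]
  have h1 := hQ.2.2
  rw [F_eq, hL.card_eq] at h1
  linarith

theorem K2.cost3 (h : K2 X Bad) {Q B : Finset T} (hL : Link X Bad Q B) :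
    ∀ V ∈ S X Bad B, 3 ≤ cost X Q V := fun V hV =>
  cost_ge3 (h.clu V (S.bad hV)) (hL.hitB V hV)

theorem K2.ph_part_le (h : K2 X Bad) {Q B : Finset T} (hQ : NC X Bad Q)
    (hL : Link X Bad Q B) : ph X (Q \ Cl X Bad B) ≤ 3 := by
  rw [h.ph_part hQ hL]
  have h1 : ∑ _V ∈ S X Bad B, (3 : ℤ) ≤ ∑ V ∈ S X Bad B, cost X Q V :=
    Finset.sum_le_sum (h.cost3 hL)
  rw [Finset.sum_const, nsmul_eq_mul] at h1
  rcases hL.card_le with h2 | h2 <;> rw [h2] at h1 ⊢ <;> push_cast at h1 ⊢ <;> linarith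

theorem K2.att_le (h : K2 X Bad) {Q C : Finset T} {x : P} (hQ : NC X Bad Q)
    (hC : C ∈ S X Bad Q) (hx : Att X C x) : (X.N x).card = 3 := by
  have hclu := h.clu C (S.bad hC)
  have h3 := hx.card_ge hclu
  obtain ⟨B, hB, hxB⟩ := h.wit hx.1 h3
  have hL := h.linked hQ hB hC hx hxB
  have hp := h.ph_part_le hQ hL
  set Y := Q \ Cl X Bad B with hY
  have hsub : X.N x ⊆ Y ∪ (X.N x ∩ C) := by
    intro t ht
    by_cases htC : t ∈ C
    · exact Finset.mem_union_right _ (Finset.mem_inter.2 ⟨ht, htC⟩)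
    · refine Finset.mem_union_left _ (Finset.mem_sdiff.2 ⟨S.cl' hC hx.1 hx.2.1 ht htC, ?_⟩)
      intro hcl
      exact Finset.disjoint_left.1 Cl_disj hcl (hxB ht)
  have hg := h.ng.g4 x hx.1 (Y ∪ (X.N x ∩ C)) (by
    apply Finset.union_subset (Finset.sdiff_subset.trans hQ.1)
    exact Finset.inter_subset_left.trans (X.sub x hx.1)) hsub
  have h2 := hclu.two x hx.1 hx.2.1
  have hxY : x ∉ J X Y := by
    intro hxY
    obtain ⟨t, ht1, ht2⟩ := (meets_iff _ _).1 hx.2.1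
    exact S.not_mem hC ht2 (Finset.mem_sdiff.1 ((mem_J.1 hxY).2 ht1)).1
  have hJ : (J X Y).card + 1 ≤ (J X (Y ∪ (X.N x ∩ C))).card := by
    rw [← Finset.card_insert_of_notMem hxY]
    apply Finset.card_le_card
    intro p hp
    rcases Finset.mem_insert.1 hp with rfl | hp
    · exact mem_J.2 ⟨hx.1, hsub⟩
    · exact mem_J.2 ⟨(mem_J.1 hp).1, (mem_J.1 hp).2.trans Finset.subset_union_left⟩
  have hcard := Finset.card_union_le Y (X.N x ∩ C)
  unfold ph at hg hp
  omega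

/-! ### Exclusion of two clusters -/

/-- The structure of a critical set with two clusters. -/
structure Y2 (X : Pos T P) (Q : Finset T) (w : T) (y1 y2 : P) (T1 T2 : Finset T) : Prop where
  w1 : w ∉ T1
  w2 : w ∉ T2
  dis : Disjoint T1 T2
  un : Q = insert w (T1 ∪ T2)
  c1 : T1.card = 2
  c2 : T2.card = 2
  s1 : T1 ⊆ X.N y1
  s2 : T2 ⊆ X.N y2
  d1 : Disjoint (X.N y1) T2
  d2 : Disjoint (X.N y2) T1
  J : ∀ p, p ∈ J X Q ↔ p = y1 ∨ p = y2

theorem Y2.symm {Q : Finset T} {w : T} {y1 y2 : P} {T1 T2 : Finset T}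
    (h : Y2 X Q w y1 y2 T1 T2) : Y2 X Q w y2 y1 T2 T1 :=
  ⟨h.w2, h.w1, h.dis.symm, by rw [h.un, Finset.union_comm], h.c2, h.c1, h.s2, h.s1, h.d2, h.d1,
    fun p => (h.J p).trans or_comm⟩

theorem Y2.ne {Q : Finset T} {w : T} {y1 y2 : P} {T1 T2 : Finset T}
    (h : Y2 X Q w y1 y2 T1 T2) : y1 ≠ y2 := by
  rintro rfl
  have h1 : 0 < T2.card := by rw [h.c2]; norm_num
  obtain ⟨t, ht⟩ := Finset.card_pos.1 h1
  exact Finset.disjoint_left.1 h.d1 (h.s2 ht) ht

theorem Y2.compare1 {Q : Finset T} {w w' : T} {y1 y2 : P} {T1 T2 T1' T2' : Finset T}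
    (h : Y2 X Q w y1 y2 T1 T2) (h' : Y2 X Q w' y1 y2 T1' T2') (hw : w' ∈ T1) :
    w ∈ X.N y1 ∧ w ∉ X.N y2 := by
  have hy1 : X.N y1 ⊆ insert w T1 := by
    intro t ht
    have h1 := (mem_J.1 ((h.J y1).2 (Or.inl rfl))).2 ht
    rw [h.un] at h1
    rcases Finset.mem_insert.1 h1 with rfl | h1
    · exact Finset.mem_insert_self _ _
    rcases Finset.mem_union.1 h1 with h1 | h1
    · exact Finset.mem_insert_of_mem h1
    · exact absurd h1 (Finset.disjoint_left.1 h.d1 ht)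
  have hsub : T1' ⊆ (insert w T1).erase w' := by
    intro t ht
    refine Finset.mem_erase.2 ⟨?_, hy1 (h'.s1 ht)⟩
    rintro rfl
    exact h'.w1 ht
  have hcard : ((insert w T1).erase w').card = 2 := by
    rw [Finset.card_erase_of_mem (Finset.mem_insert_of_mem hw),
      Finset.card_insert_of_notMem h.w1, h.c1]
  have heq : T1' = (insert w T1).erase w' :=
    Finset.eq_of_subset_of_card_le hsub (by rw [hcard, h'.c1])
  have hwT : w ∈ T1' := by
    rw [heq]
    refine Finset.mem_erase.2 ⟨?_, Finset.mem_insert_self _ _⟩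
    rintro rfl
    exact h.w1 hw
  exact ⟨h'.s1 hwT, fun h2 => Finset.disjoint_left.1 h'.d2 h2 hwT⟩

theorem Y2.compare {Q : Finset T} {w w' : T} {y1 y2 y1' y2' : P} {T1 T2 T1' T2' : Finset T}
    (h : Y2 X Q w y1 y2 T1 T2) (h' : Y2 X Q w' y1' y2' T1' T2') (hw : w' ∈ T1) :
    w ∈ X.N y1 ∧ w ∉ X.N y2 := by
  have h1 := (h.J y1').1 ((h'.J y1').2 (Or.inl rfl))
  have h2 := (h.J y2').1 ((h'.J y2').2 (Or.inr rfl))
  have hne := h'.ne
  rcases h1 with rfl | rfl
  · rcases h2 with rfl | rfl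
    · exact absurd rfl hne
    · exact h.compare1 h' hw
  · rcases h2 with rfl | rfl
    · exact h.compare1 h'.symm hw
    · exact absurd rfl hne

theorem K2.y2_exists (h : K2 X Bad) {Q C : Finset T} {x : P} (hQ : NC X Bad Q)
    (h2 : (S X Bad Q).card = 2) (hC : C ∈ S X Bad Q) (hx : Att X C x) :
    ∃ w y1 y2 T1 T2, Y2 X Q w y1 y2 T1 T2 ∧ w ∈ X.N x ∧ w ∉ C := by
  have hclu := h.clu C (S.bad hC)
  obtain ⟨B, hB, hxB⟩ := h.wit hx.1 (hx.card_ge hclu)
  have hL := h.linked hQ hB hC hx hxB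
  have hSB : (S X Bad B).card = 2 := by rw [← hL.card_eq, h2]
  obtain ⟨D1, D2, hD, hSD⟩ := Finset.card_eq_two.1 hSB
  have m1 : D1 ∈ S X Bad B := by rw [hSD]; exact Finset.mem_insert_self _ _
  have m2 : D2 ∈ S X Bad B := by
    rw [hSD]; exact Finset.mem_insert_of_mem (Finset.mem_singleton_self _)
  have hsum := hL.sumQ
  have hph := h.ph_part hQ hL
  rw [hSD, Finset.sum_pair hD, Finset.card_pair hD] at hsum hph
  have k1 := h.cost3 hL D1 m1
  have k2 := h.cost3 hL D2 m2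
  have e1 : cost X Q D1 = 3 := by push_cast at hsum; linarith
  have e2 : cost X Q D2 = 3 := by push_cast at hsum; linarith
  rw [e1, e2] at hph
  norm_num at hph
  have u1 : D1 ⊆ X.U := (h.clu D1 (S.bad m1)).sub
  -- the remaining part
  have hJ0 : J X (Q \ Cl X Bad B) = ∅ := by
    by_contra hne
    obtain ⟨y, hy⟩ := Finset.nonempty_iff_ne_empty.2 hne
    obtain ⟨hy1, hy2⟩ := mem_J.1 hy
    have := h.ng.g4 y hy1 _ (Finset.sdiff_subset.trans hQ.1) hy2
    have h3 := h.no_pend hy1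
    omega
  have hcard1 : (Q \ Cl X Bad B).card = 1 := by
    unfold ph at hph
    rw [hJ0] at hph
    simp only [Finset.card_empty, Nat.cast_zero, sub_zero] at hph
    omega
  obtain ⟨w, hw⟩ := Finset.card_eq_one.1 hcard1
  have hCl : Cl X Bad B = D1 ∪ D2 := by
    rw [Cl, hSD, Finset.biUnion_insert, Finset.singleton_biUnion]
    rfl
  have hwQ : w ∈ Q \ Cl X Bad B := by rw [hw]; exact Finset.mem_singleton_self w
  obtain ⟨hwQ1, hwQ2⟩ := Finset.mem_sdiff.1 hwQ
  rw [hCl] at hwQ2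
  -- one cluster
  have key : ∀ D ∈ S X Bad B, cost X Q D = 3 → (Q ∩ D).card = 2 ∧
      ∃ y, ((J X Q).filter fun p => Meets X p D) = {y} := by
    intro D hD1 hc
    have hcl := h.clu D (S.bad hD1)
    have hh := hL.hitB D hD1
    have hc2 : (Q ∩ D).card = 2 := by
      by_contra hn
      have := cost_ge4 hcl (by omega : 3 ≤ (Q ∩ D).card)
      linarith
    refine ⟨hc2, ?_⟩
    rw [← Finset.card_eq_one]
    unfold cost at hc
    rw [hc2] at hc
    push_cast at hc
    omega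
  obtain ⟨q1, y1, f1⟩ := key D1 m1 e1
  obtain ⟨q2, y2, f2⟩ := key D2 m2 e2
  have g1 : y1 ∈ (J X Q).filter fun p => Meets X p D1 := by
    rw [f1]; exact Finset.mem_singleton_self _
  have g2 : y2 ∈ (J X Q).filter fun p => Meets X p D2 := by
    rw [f2]; exact Finset.mem_singleton_self _
  obtain ⟨g1a, g1b⟩ := Finset.mem_filter.1 g1
  obtain ⟨g2a, g2b⟩ := Finset.mem_filter.1 g2
  have tr : ∀ D ∈ S X Bad B, ∀ y ∈ J X Q, Meets X y D → (Q ∩ D).card = 2 →
      Q ∩ D ⊆ X.N y := by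
    intro D hD1 y hy hm hc
    obtain ⟨hy1, hy2⟩ := mem_J.1 hy
    have h5 := (h.clu D (S.bad hD1)).two y hy1 hm
    have h6 : X.N y ∩ D ⊆ Q ∩ D := Finset.inter_subset_inter hy2 (Finset.Subset.refl _)
    have h7 := Finset.eq_of_subset_of_card_le h6 (by omega)
    rw [← h7]
    exact Finset.inter_subset_left
  have dj : ∀ y ∈ X.A, ∀ D, ¬ Meets X y D → Disjoint (X.N y) (Q ∩ D) := by
    intro y _ D hm
    unfold Meets at hm
    rw [not_not] at hm
    exact hm.mono_right Finset.inter_subset_right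
  refine ⟨w, y1, y2, Q ∩ D1, Q ∩ D2, ⟨?_, ?_, ?_, ?_, q1, q2, ?_, ?_, ?_, ?_, ?_⟩, ?_, ?_⟩
  · exact fun h' => hwQ2 (Finset.mem_union_left _ (Finset.mem_inter.1 h').2)
  · exact fun h' => hwQ2 (Finset.mem_union_right _ (Finset.mem_inter.1 h').2)
  · exact (S.disjoint h.clu m1 m2 hD).mono Finset.inter_subset_right Finset.inter_subset_right
  · rw [← Finset.inter_union_distrib_left, ← hCl, Finset.insert_eq, ← hw]
    exact (Finset.sdiff_union_inter Q _).symm
  · exact tr D1 m1 y1 g1a g1b q1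
  · exact tr D2 m2 y2 g2a g2b q2
  · exact dj y1 (mem_J.1 g1a).1 D2 (S.not_both h.clu m1 m2 hD (mem_J.1 g1a).1 g1b)
  · exact dj y2 (mem_J.1 g2a).1 D1 (S.not_both h.clu m2 m1 hD.symm (mem_J.1 g2a).1 g2b)
  · intro p
    constructor
    · intro hp
      by_cases hm1 : Meets X p D1
      · left
        have : p ∈ (J X Q).filter fun p => Meets X p D1 := Finset.mem_filter.2 ⟨hp, hm1⟩
        rw [f1] at this
        exact Finset.mem_singleton.1 this
      by_cases hm2 : Meets X p D2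
      · right
        have : p ∈ (J X Q).filter fun p => Meets X p D2 := Finset.mem_filter.2 ⟨hp, hm2⟩
        rw [f2] at this
        exact Finset.mem_singleton.1 this
      exfalso
      have : p ∈ J X (Q \ Cl X Bad B) := by
        obtain ⟨hp1, hp2⟩ := mem_J.1 hp
        refine mem_J.2 ⟨hp1, fun t ht => Finset.mem_sdiff.2 ⟨hp2 ht, ?_⟩⟩
        rw [hCl]
        intro h'
        rcases Finset.mem_union.1 h' with h' | h'
        · exact hm1 (meets_of ht h')
        · exact hm2 (meets_of ht h')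
      rw [hJ0] at this
      exact Finset.notMem_empty _ this
    · rintro (rfl | rfl)
      · exact g1a
      · exact g2a
  · obtain ⟨t, ht, htC⟩ := Finset.not_subset.1 hx.2.2
    have : t ∈ Q \ Cl X Bad B := by
      refine Finset.mem_sdiff.2 ⟨S.cl' hC hx.1 hx.2.1 ht htC, ?_⟩
      intro hcl
      exact Finset.disjoint_left.1 Cl_disj hcl (hxB ht)
    rw [hw] at this
    rw [← Finset.mem_singleton.1 this]
    exact ht
  · exact fun h' => S.not_mem hC h' hwQ1

theorem K2.y2_cover (h : K2 X Bad) {Q : Finset T} {w : T} {y1 y2 : P} {T1 T2 : Finset T}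
    (hQ : NC X Bad Q) (hY : Y2 X Q w y1 y2 T1 T2) :
    ∃ C ∈ S X Bad Q, ∃ e, Att X C e ∧ ∃ t ∈ T1, t ∈ X.N e := by
  by_contra hn
  push Not at hn
  have hT1 : T1 ⊆ Q := by
    rw [hY.un]
    exact Finset.subset_union_left.trans (Finset.subset_insert _ _)
  have hsub : S X Bad Q ⊆ S X Bad (Q \ T1) := by
    intro V hV
    obtain ⟨a1, a2, a3, a4, a5⟩ := mem_S.1 hV
    refine mem_S.2 ⟨a1, a2, a3, a4.mono_right Finset.sdiff_subset, ?_⟩
    intro p hp hm t ht
    by_cases htV : t ∈ V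
    · exact Finset.mem_union_left _ htV
    refine Finset.mem_union_right _ (Finset.mem_sdiff.2 ⟨S.cl' hV hp hm ht htV, ?_⟩)
    intro htT
    exact hn V hV p ⟨hp, hm, fun hs => htV (hs ht)⟩ t htT ht
  have hcl := h.closer (Q \ T1) (Finset.sdiff_subset.trans hQ.1) (hQ.2.1.mono hsub)
  have hcS := Finset.card_le_card hsub
  have hJ : 0 < (J X (Q \ T1)).card := by
    rw [Finset.card_pos]
    have h2 := mem_J.1 ((hY.J y2).2 (Or.inr rfl))
    exact ⟨y2, mem_J.2 ⟨h2.1, Finset.subset_sdiff.2 ⟨h2.2, hY.d2⟩⟩⟩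
  have hc5 : Q.card = 5 := by
    rw [hY.un, Finset.card_insert_of_notMem, Finset.card_union_of_disjoint hY.dis, hY.c1, hY.c2]
    intro h'
    rcases Finset.mem_union.1 h' with h' | h'
    · exact hY.w1 h'
    · exact hY.w2 h'
  have hc3 : (Q \ T1).card = 3 := by
    rw [Finset.card_sdiff_of_subset hT1, hc5, hY.c1]
  have hJQ : (J X Q).card = 2 := by
    have : J X Q = {y1, y2} := by
      ext p
      rw [hY.J p, Finset.mem_insert, Finset.mem_singleton]
    rw [this, Finset.card_pair hY.ne]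
  have hF := hQ.2.2
  unfold F at hF hcl
  rw [hc5, hJQ] at hF
  rw [hc3] at hcl
  push_cast at hF hcl
  omega

theorem K2.y2_half (h : K2 X Bad) {Q : Finset T} {w : T} {y1 y2 : P} {T1 T2 : Finset T}
    (hQ : NC X Bad Q) (h2 : (S X Bad Q).card = 2) (hY : Y2 X Q w y1 y2 T1 T2) :
    w ∈ X.N y1 ∧ w ∉ X.N y2 := by
  obtain ⟨C, hC, e, he, t, ht, hte⟩ := h.y2_cover hQ hY
  obtain ⟨w', y1', y2', T1', T2', hY', hw1, hw2⟩ := h.y2_exists hQ h2 hC he
  have hclu := h.clu C (S.bad hC)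
  have h3 := h.att_le hQ hC he
  have htQ : t ∈ Q := by
    rw [hY.un]
    exact Finset.mem_insert_of_mem (Finset.mem_union_left _ ht)
  have htC : t ∉ C := fun h' => S.not_mem hC h' htQ
  have hc := hclu.two e he.1 he.2.1
  have heq : t = w' := by
    by_contra hne
    have hsub : insert t (insert w' (X.N e ∩ C)) ⊆ X.N e := by
      intro s hs
      rcases Finset.mem_insert.1 hs with rfl | hs
      · exact hte
      rcases Finset.mem_insert.1 hs with rfl | hs
      · exact hw1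
      · exact (Finset.mem_inter.1 hs).1
    have := Finset.card_le_card hsub
    rw [Finset.card_insert_of_notMem, Finset.card_insert_of_notMem] at this
    · omega
    · exact fun h' => hw2 (Finset.mem_inter.1 h').2
    · intro h'
      rcases Finset.mem_insert.1 h' with h' | h'
      · exact hne h'
      · exact htC (Finset.mem_inter.1 h').2
  exact hY.compare hY' (heq ▸ ht)

theorem K2.not_two (h : K2 X Bad) {Q : Finset T} (hQ : NC X Bad Q) :
    (S X Bad Q).card ≠ 2 := by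
  intro h2
  obtain ⟨C, hC⟩ := hQ.2.1
  obtain ⟨x, hx⟩ := h.att (S.bad hC)
  obtain ⟨w, y1, y2, T1, T2, hY, -, -⟩ := h.y2_exists hQ h2 hC hx
  exact (h.y2_half hQ h2 hY).2 (h.y2_half hQ h2 hY.symm).1

/-! ### One cluster -/

theorem Nc.toNC {Q C : Finset T} (h : Nc X Bad Q C) : NC X Bad Q := by
  refine ⟨h.sub, ?_, ?_⟩
  · rw [h.s]
    exact ⟨C, Finset.mem_singleton_self C⟩
  · rw [F_eq, h.s, h.ph, Finset.card_singleton]
    norm_num

theorem Nc.mem {Q C : Finset T} (h : Nc X Bad Q C) : C ∈ S X Bad Q := by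
  rw [h.s]
  exact Finset.mem_singleton_self C

theorem K2.nc_of (h : K2 X Bad) {Q : Finset T} (hQ : NC X Bad Q) : ∃ C, Nc X Bad Q C := by
  obtain ⟨C, hC⟩ := hQ.2.1
  obtain ⟨x, hx⟩ := h.att (S.bad hC)
  obtain ⟨B, hB, hxB⟩ := h.wit hx.1 (hx.card_ge (h.clu C (S.bad hC)))
  have hL := h.linked hQ hB hC hx hxB
  have h1 : (S X Bad Q).card = 1 := by
    have h2 := h.not_two hQ
    have h3 := hL.card_le
    rw [← hL.card_eq] at h3
    omega
  obtain ⟨C', hC'⟩ := Finset.card_eq_one.1 h1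
  refine ⟨C', hQ.1, hC', ?_⟩
  have h3 := hQ.2.2
  rw [F_eq, h1] at h3
  push_cast at h3
  linarith

theorem Cl_nc {B D : Finset T} (h : Nc X Bad B D) : Cl X Bad B = D := by
  rw [Cl, h.s, Finset.singleton_biUnion]
  rfl

theorem K2.toN (h : K2 X Bad) : K2N X Bad where
  toK2 := h
  nc_of := fun Q hQ => h.nc_of hQ
  att3 := fun Q C x hQ hx => h.att_le hQ.toNC hQ.mem hx
  wit1 := by
    intro Q C x hQ hx
    obtain ⟨B, hB, hxB⟩ := h.wit hx.1 (hx.card_ge (h.clu C (S.bad hQ.mem)))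
    obtain ⟨D, hD⟩ := h.nc_of hB
    exact ⟨B, D, hD, hxB⟩
  link := by
    intro Q C B D x hQ hB hx hxB
    have hL := h.linked hQ.toNC hB.toNC hQ.mem hx hxB
    have h1 := hL.hitQ C hQ.mem
    have h2 := hL.hitB D hB.mem
    have h3 := hL.emQ
    have h4 := h.ph_part hQ.toNC hL
    have h5 := hL.sumQ
    have h6 := h.cost3 hL D hB.mem
    rw [Cl_nc hB] at h3 h4
    rw [hB.s, Finset.sum_singleton, Finset.card_singleton] at h4 h5
    push_cast at h4 h5
    exact ⟨h1, h2, h3, by linarith, h6, by linarith⟩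

end Pool.Agent.TDL
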