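import Pool.Agent.Helper33_TDL.K2s

/-!
# TDL, the case kappa = 2: facts on bases (9.5, CUT, 9.7, 12, 13)
-/

set_option autoImplicit false

namespace Pool.Agent.TDL

open scoped Classical

variable {T P : Type} {X : Pos T P} {Bad : Finset T → Prop}

theorem Nc.mem' {Q C : Finset T} (h : Nc X Bad Q C) : C ∈ S X Bad Q := by
  rw [h.s]
  exact Finset.mem_singleton_self C

theorem Nc.clu (h : K2N X Bad) {Q C : Finset T} (hQ : Nc X Bad Q C) : Clu X C :=
  h.clu C (S.bad hQ.mem')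

/-- Uniqueness of the token. -/
theorem K2N.tok_unique (h : K2N X Bad) {Q C : Finset T} (hQ : Nc X Bad Q C) {e : P}
    (he : Att X C e) {t t' : T} (h1 : t ∈ X.N e) (h2 : t ∉ C) (h3 : t' ∈ X.N e)
    (h4 : t' ∉ C) : t = t' := by
  by_contra hne
  have hc := (hQ.clu h).two e he.1 he.2.1
  have h3' := h.att3 Q C e hQ he
  have hsub : insert t (insert t' (X.N e ∩ C)) ⊆ X.N e := by
    intro s hs
    rcases Finset.mem_insert.1 hs with rfl | hs
    · exact h1
    rcases Finset.mem_insert.1 hs with rfl | hs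
    · exact h3
    · exact (Finset.mem_inter.1 hs).1
  have := Finset.card_le_card hsub
  rw [Finset.card_insert_of_notMem, Finset.card_insert_of_notMem] at this
  · omega
  · exact fun h' => h4 (Finset.mem_inter.1 h').2
  · intro h'
    rcases Finset.mem_insert.1 h' with h' | h'
    · exact hne h'
    · exact h2 (Finset.mem_inter.1 h').2

theorem Att.tok {C : Finset T} {e : P} (he : Att X C e) : ∃ t ∈ X.N e, t ∉ C := by
  obtain ⟨t, h1, h2⟩ := Finset.not_subset.1 he.2.2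
  exact ⟨t, h1, h2⟩

/-- Form of an attached player. -/
theorem K2N.form (h : K2N X Bad) {Q C : Finset T} (hQ : Nc X Bad Q C) {e : P}
    (he : Att X C e) : ∃ u v t, u ≠ v ∧ u ∈ C ∧ v ∈ C ∧ t ∉ C ∧ X.N e ∩ C = {u, v} ∧
      X.N e = {u, v, t} := by
  have hc := (hQ.clu h).two e he.1 he.2.1
  obtain ⟨u, v, huv, he2⟩ := Finset.card_eq_two.1 hc
  obtain ⟨t, ht, htC⟩ := he.tok
  have hu : u ∈ X.N e ∩ C := by rw [he2]; exact Finset.mem_insert_self _ _
  have hv : v ∈ X.N e ∩ C := by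
    rw [he2]; exact Finset.mem_insert_of_mem (Finset.mem_singleton_self _)
  obtain ⟨hu1, hu2⟩ := Finset.mem_inter.1 hu
  obtain ⟨hv1, hv2⟩ := Finset.mem_inter.1 hv
  refine ⟨u, v, t, huv, hu2, hv2, htC, he2, ?_⟩
  ext s
  simp only [Finset.mem_insert, Finset.mem_singleton]
  constructor
  · intro hs
    by_cases hsC : s ∈ C
    · have : s ∈ X.N e ∩ C := Finset.mem_inter.2 ⟨hs, hsC⟩
      rw [he2] at this
      simp only [Finset.mem_insert, Finset.mem_singleton] at this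
      tauto
    · right; right
      exact h.tok_unique hQ he hs hsC ht htC
  · rintro (rfl | rfl | rfl)
    · exact hu1
    · exact hv1
    · exact ht

/-- (CUT, i) -/
theorem K2N.cut1 (h : K2N X Bad) {Q C B D : Finset T} (hQ : Nc X Bad Q C)
    (hB : Nc X Bad B D) {e : P} (he : Att X C e) {c1 c2 s : T} (hc1 : c1 ∈ X.N e)
    (hc1C : c1 ∈ C) (hc2 : c2 ∈ X.N e) (hc2C : c2 ∈ C) (hne : c1 ≠ c2) (hs : s ∈ X.N e)
    (hsC : s ∉ C) (hsD : s ∈ D) : (c1 ∈ D ∧ c2 ∈ B) ∨ (c2 ∈ D ∧ c1 ∈ B) := by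
  have hD := hB.clu h
  have hm : Meets X e D := meets_of hs hsD
  obtain ⟨t, ht1, ht2, ht3⟩ := hD.other he.1 hs hsD
  have hp := hD.pair he.1 hs hsD ht1 ht2 ht3.symm
  have hin : ∀ r ∈ X.N e, r ∉ D → r ∈ B := fun r hr hrD => S.cl' hB.mem' he.1 hm hr hrD
  have htC : t ∈ C := by
    by_contra htC
    exact ht3 (h.tok_unique hQ he ht1 htC hs hsC)
  have htp : t = c1 ∨ t = c2 := by
    have h1 := (hQ.clu h).pair he.1 hc1 hc1C hc2 hc2C hne
    have : t ∈ X.N e ∩ C := Finset.mem_inter.2 ⟨ht1, htC⟩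
    rw [h1] at this
    simpa using this
  have hout : ∀ r ∈ X.N e, r ∈ C → r ≠ t → r ∉ D := by
    intro r hr hrC hrt hrD
    have : r ∈ X.N e ∩ D := Finset.mem_inter.2 ⟨hr, hrD⟩
    rw [hp] at this
    simp only [Finset.mem_insert, Finset.mem_singleton] at this
    rcases this with rfl | h'
    · exact hsC hrC
    · exact hrt h'
  rcases htp with rfl | rfl
  · left
    exact ⟨ht2, hin c2 hc2 (hout c2 hc2 hc2C hne.symm)⟩
  · right
    exact ⟨ht2, hin c1 hc1 (hout c1 hc1 hc1C hne)⟩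

/-- (CUT, ii) -/
theorem K2N.cut2 (h : K2N X Bad) {Q C B D : Finset T} (hQ : Nc X Bad Q C)
    (hB : Nc X Bad B D) {r : P} (hr : r ∈ X.A) {i c : T} (hi : i ∈ X.N r) (hiC : i ∈ C)
    (hiD : i ∈ D) (hc : c ∈ X.N r) (hcC : c ∈ C) (hcD : c ∉ D) :
    c ∈ B ∧ Att X C r ∧ ∃ s ∈ X.N r, s ∉ C ∧ s ∈ Q ∧ s ∈ D := by
  have hD := hB.clu h
  have hm : Meets X r D := meets_of hi hiD
  obtain ⟨s, hs1, hs2, hs3⟩ := hD.other hr hi hiD
  have hne : i ≠ c := fun e => hcD (e ▸ hiD)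
  have hp := (hQ.clu h).pair hr hi hiC hc hcC hne
  have hsC : s ∉ C := by
    intro hsC
    have : s ∈ X.N r ∩ C := Finset.mem_inter.2 ⟨hs1, hsC⟩
    rw [hp] at this
    simp only [Finset.mem_insert, Finset.mem_singleton] at this
    rcases this with rfl | rfl
    · exact hs3 rfl
    · exact hcD hs2
  have hmC : Meets X r C := meets_of hi hiC
  exact ⟨S.cl' hB.mem' hr hm hc hcD, ⟨hr, hmC, fun h' => hsC (h' hs1)⟩, s, hs1, hsC,
    S.cl' hQ.mem' hr hmC hs1 hsC, hs2⟩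

/-! ### Elementary facts on a base -/

theorem Base.aQ {Q C : Finset T} {y1 y2 : P} {a b : T} (h : Base X Bad Q C y1 y2 a b) :
    a ∈ Q := by
  rw [h.eq]; exact Finset.mem_insert_of_mem h.ha

theorem Base.bQ {Q C : Finset T} {y1 y2 : P} {a b : T} (h : Base X Bad Q C y1 y2 a b) :
    b ∈ Q := by
  rw [h.eq]; exact Finset.mem_insert_self _ _

theorem Base.yQ {Q C : Finset T} {y1 y2 : P} {a b : T} (h : Base X Bad Q C y1 y2 a b) :
    X.N y1 ⊆ Q := by
  rw [h.eq]; exact Finset.subset_insert _ _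

theorem Base.ab {Q C : Finset T} {y1 y2 : P} {a b : T} (h : Base X Bad Q C y1 y2 a b) :
    a ≠ b := fun e => h.hb (e ▸ h.ha)

theorem kk_ne {a b t : T} (h : t ≠ b) : kk a b t = t := by
  unfold kk; rw [if_neg h]

theorem kk_b {a b : T} : kk a b b = a := by
  unfold kk; rw [if_pos rfl]

theorem kk_a {a b : T} : kk a b a = a := by
  unfold kk
  split_ifs <;> rfl

theorem Base.kk_mem {Q C : Finset T} {y1 y2 : P} {a b : T} (h : Base X Bad Q C y1 y2 a b)
    {t : T} (ht : t ∈ Q) : kk a b t ∈ X.N y1 := by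
  rw [h.eq] at ht
  rcases Finset.mem_insert.1 ht with rfl | ht
  · rw [kk_b]; exact h.ha
  · rw [kk_ne (fun e : t = b => h.hb (e ▸ ht))]
    exact ht

theorem Base.kk_self {Q C : Finset T} {y1 y2 : P} {a b : T} (h : Base X Bad Q C y1 y2 a b)
    {t : T} (ht : t ∈ X.N y1) : kk a b t = t := kk_ne (fun e : t = b => h.hb (e ▸ ht))

/-- If the class is `r ≠ a` the token is `r`. -/
theorem kk_eq {a b t r : T} (h : kk a b t = r) (hr : r ≠ a) : t = r := by
  unfold kk at h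
  split_ifs at h with h1
  · exact absurd h.symm hr
  · exact h

theorem kk_eq_a {a b t : T} (h : kk a b t = a) : t = a ∨ t = b := by
  unfold kk at h
  split_ifs at h with h1
  · exact Or.inr h1
  · exact Or.inl h

theorem Base.tokQ {Q C : Finset T} {y1 y2 : P} {a b : T} (h : Base X Bad Q C y1 y2 a b)
    {e : P} (he : Att X C e) {t : T} (h1 : t ∈ X.N e) (h2 : t ∉ C) : t ∈ Q :=
  S.cl' h.nc.mem' he.1 he.2.1 h1 h2

/-- Members of `C` are not in `Q`. -/
theorem Base.notQ {Q C : Finset T} {y1 y2 : P} {a b : T} (h : Base X Bad Q C y1 y2 a b)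
    {t : T} (h1 : t ∈ C) : t ∉ Q := S.not_mem h.nc.mem' h1

/-- The witness of an attached player is a base. -/
theorem K2B.wbase (h : K2B X Bad) {Q C : Finset T} (hQ : Nc X Bad Q C) {x : P}
    (hx : Att X C x) : ∃ B D y c s, Base X Bad B D x y c s := by
  obtain ⟨B, D, hB, hxB⟩ := h.wit1 Q C x hQ hx
  obtain ⟨y, c, s, hb⟩ := h.base B D x hB (mem_J.2 ⟨hx.1, hxB⟩) (h.att3 Q C x hQ hx)
  exact ⟨B, D, y, c, s, hb⟩

/-- The third element of a base. -/
theorem Base.third {Q C : Finset T} {y1 y2 : P} {a b : T} (h : Base X Bad Q C y1 y2 a b)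
    {r r' : T} (hr : r ∈ X.N y1) (hr' : r' ∈ X.N y1) (hne : r ≠ r') :
    ∃ r'' ∈ X.N y1, r'' ≠ r ∧ r'' ≠ r' ∧ ∀ t ∈ X.N y1, t = r ∨ t = r' ∨ t = r'' := by
  have hc : (((X.N y1).erase r).erase r').card = 1 := by
    rw [Finset.card_erase_of_mem (Finset.mem_erase.2 ⟨hne.symm, hr'⟩),
      Finset.card_erase_of_mem hr, h.c3]
  obtain ⟨r'', hr''⟩ := Finset.card_eq_one.1 hc
  have h1 : r'' ∈ ((X.N y1).erase r).erase r' := by rw [hr'']; exact Finset.mem_singleton_self _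
  obtain ⟨h2, h3⟩ := Finset.mem_erase.1 h1
  obtain ⟨h4, h5⟩ := Finset.mem_erase.1 h3
  refine ⟨r'', h5, h4, h2, fun t ht => ?_⟩
  by_contra hn
  push Not at hn
  have : t ∈ ((X.N y1).erase r).erase r' :=
    Finset.mem_erase.2 ⟨hn.2.1, Finset.mem_erase.2 ⟨hn.1, ht⟩⟩
  rw [hr''] at this
  exact hn.2.2 (Finset.mem_singleton.1 this)

theorem base_mJ1 {Q C : Finset T} {y1 y2 : P} {a b : T} (h : Base X Bad Q C y1 y2 a b) :
    y1 ∈ J X Q := (h.J y1).2 (Or.inl rfl)

theorem base_mJ2 {Q C : Finset T} {y1 y2 : P} {a b : T} (h : Base X Bad Q C y1 y2 a b) :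
    y2 ∈ J X Q := (h.J y2).2 (Or.inr rfl)

theorem Base.y_ne {Q C : Finset T} {y1 y2 : P} {a b : T} (h : Base X Bad Q C y1 y2 a b) :
    y1 ≠ y2 := by
  rintro rfl
  apply h.hb
  rw [h.n2]
  exact Finset.mem_insert_of_mem (Finset.mem_singleton_self _)

/-- A triangle in a cluster is impossible. -/
theorem Clu.no_tri {V : Finset T} (h : Clu X V) {u v w : T} {p1 p2 p3 : P} (hu : u ∈ V)
    (hv : v ∈ V) (hw : w ∈ V) (huv : u ≠ v) (hvw : v ≠ w) (huw : u ≠ w) (h1 : p1 ∈ X.A)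
    (h2 : p2 ∈ X.A) (h3 : p3 ∈ X.A) (m1 : u ∈ X.N p1) (m1' : v ∈ X.N p1) (m2 : v ∈ X.N p2)
    (m2' : w ∈ X.N p2) (m3 : u ∈ X.N p3) (m3' : w ∈ X.N p3) : False := by
  have e1 := h.pair h1 m1 hu m1' hv huv
  have e2 := h.pair h2 m2 hv m2' hw hvw
  have e3 := h.pair h3 m3 hu m3' hw huw
  have hc3 : ({u, v, w} : Finset T).card = 3 := by
    rw [Finset.card_insert_of_notMem, Finset.card_pair hvw]
    simp [huv, huw]
  have hsp := h.sp3 {u, v, w} (by
    intro t ht
    simp only [Finset.mem_insert, Finset.mem_singleton] at ht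
    rcases ht with rfl | rfl | rfl <;> assumption) (by omega)
  have n12 : p1 ≠ p2 := by
    rintro rfl
    have : w ∈ X.N p1 ∩ V := Finset.mem_inter.2 ⟨m2', hw⟩
    rw [e1] at this
    simp only [Finset.mem_insert, Finset.mem_singleton] at this
    rcases this with h' | h'
    · exact huw h'.symm
    · exact hvw h'.symm
  have n13 : p1 ≠ p3 := by
    rintro rfl
    have : w ∈ X.N p1 ∩ V := Finset.mem_inter.2 ⟨m3', hw⟩
    rw [e1] at this
    simp only [Finset.mem_insert, Finset.mem_singleton] at this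
    rcases this with h' | h'
    · exact huw h'.symm
    · exact hvw h'.symm
  have n23 : p2 ≠ p3 := by
    rintro rfl
    have : u ∈ X.N p2 ∩ V := Finset.mem_inter.2 ⟨m3, hu⟩
    rw [e2] at this
    simp only [Finset.mem_insert, Finset.mem_singleton] at this
    rcases this with h' | h'
    · exact huv h'
    · exact huw h'
  have hsub : ({p1, p2, p3} : Finset P) ⊆ Ei X V {u, v, w} := by
    intro p hp
    simp only [Finset.mem_insert, Finset.mem_singleton] at hp
    rw [mem_Ei]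
    rcases hp with rfl | rfl | rfl
    · refine ⟨h1, meets_of m1 hu, ?_⟩
      rw [e1]
      intro t ht
      simp only [Finset.mem_insert, Finset.mem_singleton] at ht ⊢
      tauto
    · refine ⟨h2, meets_of m2 hv, ?_⟩
      rw [e2]
      intro t ht
      simp only [Finset.mem_insert, Finset.mem_singleton] at ht ⊢
      tauto
    · refine ⟨h3, meets_of m3 hu, ?_⟩
      rw [e3]
      intro t ht
      simp only [Finset.mem_insert, Finset.mem_singleton] at ht ⊢
      tauto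
  have hc := Finset.card_le_card hsub
  have hcp : ({p1, p2, p3} : Finset P).card = 3 := by
    rw [Finset.card_insert_of_notMem, Finset.card_pair n23]
    simp [n12, n13]
  omega

/-- Two players with the same two targets in `V` are equal. -/
theorem Clu.same {V : Finset T} (h : Clu X V) {u v : T} {p1 p2 : P} (hu : u ∈ V)
    (hv : v ∈ V) (huv : u ≠ v) (h1 : p1 ∈ X.A) (h2 : p2 ∈ X.A) (m1 : u ∈ X.N p1)
    (m1' : v ∈ X.N p1) (m2 : u ∈ X.N p2) (m2' : v ∈ X.N p2) : p1 = p2 :=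
  h.simp p1 h1 p2 h2 (meets_of m1 hu) (by
    rw [h.pair h1 m1 hu m1' hv huv, h.pair h2 m2 hu m2' hv huv])

/-- 9.5: no player except `y1`, `y2` contains two elements of `Q`. -/
theorem K2B.two95 (h : K2B X Bad) {Q C : Finset T} {y1 y2 : P} {a b : T}
    (hb : Base X Bad Q C y1 y2 a b) {p : P} (hp : p ∈ X.A) (hp1 : p ≠ y1) (hp2 : p ≠ y2)
    {s t : T} (hs : s ∈ X.N p) (ht : t ∈ X.N p) (hsQ : s ∈ Q) (htQ : t ∈ Q) : s = t := by
  by_contra hne
  -- the class `q` different from `a`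
  have key : ∀ q ∈ X.N y1, q ≠ a → s = q ∨ t = q := by
    intro q hq hqa
    by_contra hn
    push Not at hn
    obtain ⟨z, hz, hz1, hz2, hz3⟩ := hb.third hb.ha hq (Ne.symm hqa)
    obtain ⟨e, he, t0, ht0, ht0C, hk⟩ := hb.cls q hq
    obtain ⟨B, D, hB, heB⟩ := h.wit1 Q C e hb.nc he
    have hD := hB.clu h.toK2N
    have hmem : ∀ r ∈ Q, r ≠ q → r ∈ D := by
      intro r hr hrq
      rw [hb.tok e B D he hB heB t0 ht0 ht0C r hr, hk]
      intro h'
      exact hrq (kk_eq h' hqa)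
    have hzb : z ≠ b := fun e => hb.hb (e ▸ hz)
    have hqb : q ≠ b := fun e => hb.hb (e ▸ hq)
    have hzQ : z ∈ Q := hb.yQ hz
    have azD : a ∈ D := hmem a hb.aQ (Ne.symm hqa)
    have bD : b ∈ D := hmem b hb.bQ (Ne.symm hqb)
    have zD : z ∈ D := hmem z hzQ hz2
    have sD : s ∈ D := hmem s hsQ hn.1
    have tD : t ∈ D := hmem t htQ hn.2
    have hb2 : b ∈ X.N y2 := by rw [hb.n2]; simp
    have ha2 : a ∈ X.N y2 := by rw [hb.n2]; simp
    have hmem2 : ∀ r ∈ Q, r ≠ q → r = a ∨ r = b ∨ r = z := by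
      intro r hr hrq
      rw [hb.eq] at hr
      rcases Finset.mem_insert.1 hr with rfl | hr
      · tauto
      · rcases hz3 r hr with h' | h' | h'
        · tauto
        · exact absurd h' hrq
        · tauto
    have az : a ≠ z := hz1.symm
    rcases hmem2 s hsQ hn.1 with rfl | rfl | rfl <;> rcases hmem2 t htQ hn.2 with rfl | rfl | rfl
    · exact hne rfl
    · exact hp2 (hD.same sD tD hne hp hb.A2 hs ht ha2 hb2)
    · exact hp1 (hD.same sD tD hne hp hb.A1 hs ht hb.ha hz)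
    · exact hp2 (hD.same sD tD hne hp hb.A2 hs ht hb2 ha2)
    · exact hne rfl
    · exact hD.no_tri (u := a) (v := s) (w := t) azD sD tD hb.ab hne az hb.A2 hp hb.A1
        ha2 hb2 hs ht hb.ha hz
    · exact hp1 (hD.same sD tD hne hp hb.A1 hs ht hz hb.ha)
    · exact hD.no_tri (u := a) (v := t) (w := s) azD tD sD hb.ab (Ne.symm hne) az hb.A2 hp
        hb.A1 ha2 hb2 ht hs hb.ha hz
    · exact hne rfl
  -- both classes different from `a`
  have hcq : ((X.N y1).erase a).card = 2 := by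
    rw [Finset.card_erase_of_mem hb.ha, hb.c3]
  obtain ⟨q, z, hqz, hqz2⟩ := Finset.card_eq_two.1 hcq
  have hq : q ∈ (X.N y1).erase a := by rw [hqz2]; simp
  have hz : z ∈ (X.N y1).erase a := by rw [hqz2]; simp
  obtain ⟨hq1, hq2⟩ := Finset.mem_erase.1 hq
  obtain ⟨hz1, hz2⟩ := Finset.mem_erase.1 hz
  obtain ⟨e, he, t0, ht0, ht0C, hk⟩ := hb.cls a hb.ha
  obtain ⟨B, D, hB, heB⟩ := h.wit1 Q C e hb.nc he
  have hD := hB.clu h.toK2N
  have hmem : ∀ r ∈ X.N y1, r ≠ a → r ∈ D := by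
    intro r hr hra
    rw [hb.tok e B D he hB heB t0 ht0 ht0C r (hb.yQ hr), hk, hb.kk_self hr]
    exact hra
  have qD := hmem q hq2 hq1
  have zD := hmem z hz2 hz1
  have hqp : q ∈ X.N p := by
    rcases key q hq2 hq1 with rfl | rfl
    · exact hs
    · exact ht
  have hzp : z ∈ X.N p := by
    rcases key z hz2 hz1 with rfl | rfl
    · exact hs
    · exact ht
  exact hp1 (hD.same qD zD hqz hp hb.A1 hqp hzp hq2 hz2)

/-- Structure of a witness: fat. -/
theorem K2B.fat_s (h : K2B X Bad) {Q C B D : Finset T} {x y : P} {c s : T}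
    (hQ : Nc X Bad Q C) (hx : Att X C x) (hB : Base X Bad B D x y c s) (hc : c ∉ C) :
    s ∉ C := by
  intro hs
  have h1 : s ∈ X.N y := by rw [hB.n2]; simp
  obtain ⟨t, ht1, ht2, ht3⟩ := (hQ.clu h.toK2N).other hB.A2 h1 hs
  rw [hB.n2] at ht1
  simp only [Finset.mem_insert, Finset.mem_singleton] at ht1
  rcases ht1 with rfl | rfl
  · exact hc ht2
  · exact ht3 rfl

/-- Structure of a witness: thin. -/
theorem K2B.thin_s (h : K2B X Bad) {Q C B D : Finset T} {x y : P} {c s : T}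
    (hQ : Nc X Bad Q C) (hx : Att X C x) (hB : Base X Bad B D x y c s) (hc : c ∈ C) :
    s ∈ C := by
  have h1 : c ∈ X.N y := by rw [hB.n2]; simp
  obtain ⟨t, ht1, ht2, ht3⟩ := (hQ.clu h.toK2N).other hB.A2 h1 hc
  rw [hB.n2] at ht1
  simp only [Finset.mem_insert, Finset.mem_singleton] at ht1
  rcases ht1 with rfl | rfl
  · exact absurd rfl ht3
  · exact ht2

/-- For a fat player, `B ∩ C ⊆ N x`. -/
theorem K2B.fat_BC (h : K2B X Bad) {Q C B D : Finset T} {x y : P} {c s : T}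
    (hQ : Nc X Bad Q C) (hx : Att X C x) (hB : Base X Bad B D x y c s) (hc : c ∉ C) {l : T}
    (hl : l ∈ C) (hlB : l ∈ B) : l ∈ X.N x := by
  rw [hB.eq] at hlB
  rcases Finset.mem_insert.1 hlB with rfl | h1
  · exact absurd hl (h.fat_s hQ hx hB hc)
  · exact h1

end Pool.Agent.TDL
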