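import Pool.Agent.Helper33_TDL.K2a

/-!
# TDL, the case kappa = 2: structures and statements of the second part
-/

set_option autoImplicit false

namespace Pool.Agent.TDL

open scoped Classical

variable {T P : Type}

/-- Critical sets with the cluster `C`. -/
structure Nc (X : Pos T P) (Bad : Finset T → Prop) (Q C : Finset T) : Prop where
  sub : Q ⊆ X.U
  s : S X Bad Q = {C}
  ph : ph X Q = 6

/-- The facts on critical sets. -/
structure K2N (X : Pos T P) (Bad : Finset T → Prop) : Prop extends K2 X Bad where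
  nc_of : ∀ Q, NC X Bad Q → ∃ C, Nc X Bad Q C
  att3 : ∀ Q C x, Nc X Bad Q C → Att X C x → (X.N x).card = 3
  wit1 : ∀ Q C x, Nc X Bad Q C → Att X C x → ∃ B D, Nc X Bad B D ∧ X.N x ⊆ B
  link : ∀ Q C B D x, Nc X Bad Q C → Nc X Bad B D → Att X C x → X.N x ⊆ B →
    2 ≤ (B ∩ C).card ∧ 2 ≤ (Q ∩ D).card ∧ S X Bad (Q \ D) = ∅ ∧
      ph X (Q \ D) = 6 - cost X Q D ∧ 3 ≤ cost X Q D ∧ cost X Q D ≤ 4

/-- The class of a token. -/
noncomputable def kk (a b t : T) : T := if t = b then a else t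

/-- The standard base: `Q = {q, z, a, b}`, `N y1 = {q, z, a}`, `N y2 = {a, b}`. -/
structure Base (X : Pos T P) (Bad : Finset T → Prop) (Q C : Finset T) (y1 y2 : P) (a b : T) :
    Prop where
  nc : Nc X Bad Q C
  A1 : y1 ∈ X.A
  A2 : y2 ∈ X.A
  c3 : (X.N y1).card = 3
  ha : a ∈ X.N y1
  hb : b ∉ X.N y1
  eq : Q = insert b (X.N y1)
  n2 : X.N y2 = {a, b}
  J : ∀ p, p ∈ J X Q ↔ p = y1 ∨ p = y2
  /-- `D ∩ Q` is the set of the `t'` of the other two classes -/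
  tok : ∀ e B D, Att X C e → Nc X Bad B D → X.N e ⊆ B → ∀ t ∈ X.N e, t ∉ C → ∀ t' ∈ Q,
    (t' ∈ D ↔ kk a b t' ≠ kk a b t)
  /-- all three classes are nonempty -/
  cls : ∀ r ∈ X.N y1, ∃ e, Att X C e ∧ ∃ t ∈ X.N e, t ∉ C ∧ kk a b t = r

/-- Module BASE. -/
def BaseStmt : Prop :=
  ∀ (T P : Type) (X : Pos T P) (Bad : Finset T → Prop), K2N X Bad →
    ∀ (Q C : Finset T) (y1 : P), Nc X Bad Q C → y1 ∈ J X Q → (X.N y1).card = 3 →
      ∃ y2 a b, Base X Bad Q C y1 y2 a b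

/-- All facts of the second part. -/
structure K2B (X : Pos T P) (Bad : Finset T → Prop) : Prop extends K2N X Bad where
  base : ∀ (Q C : Finset T) (y1 : P), Nc X Bad Q C → y1 ∈ J X Q → (X.N y1).card = 3 →
    ∃ y2 a b, Base X Bad Q C y1 y2 a b

/-- Step 13: an attached player of the class of `a` is fat. -/
def Fat13 (X : Pos T P) (Bad : Finset T → Prop) : Prop :=
  ∀ (Q C : Finset T) (y1 y2 : P) (a b : T), Base X Bad Q C y1 y2 a b →
  ∀ (x : P) (B D : Finset T) (y : P) (c s : T), Att X C x → Base X Bad B D x y c s →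
    (∃ t ∈ X.N x, t ∉ C ∧ kk a b t = a) → c ∉ C

/-- Step 12: for a fat player `x`, `C ⊆ D ∪ N x`. -/
def Cov12 (X : Pos T P) (Bad : Finset T → Prop) : Prop :=
  ∀ (Q C : Finset T) (y1 y2 : P) (a b : T), Base X Bad Q C y1 y2 a b →
  ∀ (x : P) (B D : Finset T) (y : P) (c s : T), Att X C x → Base X Bad B D x y c s →
    c ∉ C → ∀ l ∈ C, l ∈ D ∨ l ∈ X.N x

/-- Step 9.6: the 4-cycle given by a fat player. -/
structure Six (X : Pos T P) (Bad : Finset T → Prop) (C D : Finset T) (a b : T) (x : P)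
    (r2 r3 : T) (g h m : P) (u v i0 i1 tg th : T) : Prop where
  ag : Att X C g
  ah : Att X C h
  am : m ∈ X.A
  uv : u ≠ v
  ii : i0 ≠ i1
  uC : u ∈ C
  vC : v ∈ C
  i0C : i0 ∈ C
  i1C : i1 ∈ C
  i0D : i0 ∈ D
  i1D : i1 ∈ D
  uD : u ∉ D
  vD : v ∉ D
  nx : X.N x ∩ C = {u, v}
  ng : X.N g = {u, i0, tg}
  nh : X.N h = {v, i1, th}
  nm : X.N m = {i0, i1}
  tgC : tg ∉ C
  thC : th ∉ C
  kg : kk a b tg = r2
  kh : kk a b th = r3
  bg : ∀ B' D' y' c' s', Base X Bad B' D' g y' c' s' → c' = i0 ∧ s' = i1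
  bh : ∀ B' D' y' c' s', Base X Bad B' D' h y' c' s' → c' = i1 ∧ s' = i0

/-- Module SIX. -/
def SixStmt : Prop :=
  ∀ (T P : Type) (X : Pos T P) (Bad : Finset T → Prop), K2B X Bad →
  ∀ (Q C : Finset T) (y1 y2 : P) (a b : T), Base X Bad Q C y1 y2 a b →
  ∀ (x : P) (B D : Finset T) (y : P) (c s : T), Att X C x → Base X Bad B D x y c s → c ∉ C →
  ∀ r2 ∈ X.N y1, ∀ r3 ∈ X.N y1, r2 ≠ r3 → r2 ≠ kk a b c → r3 ≠ kk a b c →
    ∃ g h m u v i0 i1 tg th, Six X Bad C D a b x r2 r3 g h m u v i0 i1 tg th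

/-- Module FIN. -/
def FinStmt : Prop :=
  ∀ (T P : Type) (X : Pos T P) (Bad : Finset T → Prop), K2B X Bad → Fat13 X Bad →
    Cov12 X Bad →
  ∀ (Q C : Finset T) (y1 y2 : P) (a b : T), Base X Bad Q C y1 y2 a b →
  ∀ (x : P) (B D : Finset T) (y : P) (c s : T), Att X C x → Base X Bad B D x y c s →
    kk a b c = a → c ∉ C →
  ∀ (r2 r3 : T) (g h m : P) (u v i0 i1 tg th : T),
    Six X Bad C D a b x r2 r3 g h m u v i0 i1 tg th → r2 ∈ X.N y1 → r3 ∈ X.N y1 → r2 ≠ r3 →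
    r2 ≠ a → r3 ≠ a → deg X u = 2 → deg X i1 = 2 → False

end Pool.Agent.TDL
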